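import Pool.Agent.Lib.H46AE.Defs

/-!
# Project H46AE, chunk A1: distance from the centroid of a unit clique
-/

open Finset

namespace Pool.Agent.Lib.H46AE

open Pool.Agent.Lib.Helper17.AE

variable {d : ℕ}

private theorem A1_two_inner (x y : E d) :
    2 * inner ℝ x y = ‖x‖ ^ 2 + ‖y‖ ^ 2 - dist x y ^ 2 := by
  rw [dist_eq_norm, norm_sub_sq_real]
  ring

private theorem A1_dist_sum {K : Finset (E d)} (hK : Clq K) {y : E d} (hy : y ∈ K) :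
    ∑ z ∈ K, dist y z ^ 2 = (K.card : ℝ) - 1 := by
  classical
  have h1 : ∀ z ∈ K, dist y z ^ 2 = 1 - if z = y then (1 : ℝ) else 0 := by
    intro z hz
    by_cases h : z = y
    · rw [if_pos h, h, dist_self]
      norm_num
    · rw [if_neg h, hK y hy z hz (fun h2 => h h2.symm)]
      norm_num
  rw [Finset.sum_congr rfl h1, Finset.sum_sub_distrib, Finset.sum_ite_eq', if_pos hy,
    Finset.sum_const, nsmul_eq_mul, mul_one]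

private theorem A1_norm_sum {K : Finset (E d)} (hK : Clq K) :
    2 * ‖∑ y ∈ K, y‖ ^ 2 = 2 * (K.card : ℝ) * ∑ y ∈ K, ‖y‖ ^ 2 - (K.card : ℝ) ^ 2 + K.card := by
  have h1 : ∀ y ∈ K, 2 * inner ℝ y (∑ z ∈ K, z) =
      (K.card : ℝ) * ‖y‖ ^ 2 + ∑ z ∈ K, ‖z‖ ^ 2 - ((K.card : ℝ) - 1) := by
    intro y hy
    rw [inner_sum, Finset.mul_sum, Finset.sum_congr rfl fun z _ => A1_two_inner y z,
      Finset.sum_sub_distrib, Finset.sum_add_distrib, A1_dist_sum hK hy, Finset.sum_const,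
      nsmul_eq_mul]
  have h2 : 2 * ‖∑ y ∈ K, y‖ ^ 2 = ∑ y ∈ K, 2 * inner ℝ y (∑ z ∈ K, z) := by
    rw [← Finset.mul_sum, ← sum_inner, real_inner_self_eq_norm_sq]
  rw [h2, Finset.sum_congr rfl h1, Finset.sum_sub_distrib, Finset.sum_add_distrib,
    ← Finset.mul_sum, Finset.sum_const, Finset.sum_const, nsmul_eq_mul, nsmul_eq_mul]
  ring

/-- Proof. `k = K.card`, `s = ∑ y`. `‖x - s/k‖² = ‖x‖² - (2/k)⟪x,s⟫ + ‖s‖²/k²`. `‖s‖² = ∑_{y,y'} ⟪y,y'⟫ =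
∑_{y,y'} (‖y‖² + ‖y'‖² - dist²)/2 = k ∑ ‖y‖² - (k² - k)/2` (`dist y y' = 1` for `y ≠ y'`).
`mn K x = (1/k) ∑ (‖x‖² - 2⟪x,y⟫ + ‖y‖² - 1) = ‖x‖² - (2/k)⟪x,s⟫ + (1/k)∑‖y‖² - 1`. Subtract. -/
theorem norm_cen {K : Finset (E d)} (hK : Clq K) (hne : K.Nonempty) (x : E d) :
    ‖x - cen K‖ ^ 2 = mn K x + (K.card + 1) / (2 * K.card) := by
  have hk : (0 : ℝ) < K.card := by exact_mod_cast hne.card_pos
  have h1 := A1_norm_sum hK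
  have h2 : 2 * inner ℝ x (∑ z ∈ K, z) =
      (K.card : ℝ) * ‖x‖ ^ 2 + ∑ z ∈ K, ‖z‖ ^ 2 - ∑ z ∈ K, dist x z ^ 2 := by
    rw [inner_sum, Finset.mul_sum, Finset.sum_congr rfl fun z _ => A1_two_inner x z,
      Finset.sum_sub_distrib, Finset.sum_add_distrib, Finset.sum_const, nsmul_eq_mul]
  have h3 : ∑ y ∈ K, ex x y = ∑ y ∈ K, dist x y ^ 2 - K.card := by
    unfold ex
    rw [Finset.sum_sub_distrib, Finset.sum_const, nsmul_eq_mul, mul_one]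
  unfold mn cen
  rw [h3, norm_sub_sq_real, real_inner_smul_right, norm_smul, mul_pow, Real.norm_of_nonneg
    (inv_nonneg.2 hk.le)]
  obtain ⟨k, hk'⟩ : ∃ k : ℝ, k = (K.card : ℝ) := ⟨_, rfl⟩
  obtain ⟨q, hq⟩ : ∃ q : ℝ, q = ∑ z ∈ K, ‖z‖ ^ 2 := ⟨_, rfl⟩
  obtain ⟨D, hD⟩ : ∃ D : ℝ, D = ∑ z ∈ K, dist x z ^ 2 := ⟨_, rfl⟩
  obtain ⟨i, hi⟩ : ∃ i : ℝ, i = inner ℝ x (∑ z ∈ K, z) := ⟨_, rfl⟩
  obtain ⟨t, ht⟩ : ∃ t : ℝ, t = ‖∑ z ∈ K, z‖ ^ 2 := ⟨_, rfl⟩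
  obtain ⟨m, hm⟩ : ∃ m : ℝ, m = ‖x‖ ^ 2 := ⟨_, rfl⟩
  rw [← hk'] at hk h1 h2 ⊢
  rw [← hq] at h1 h2
  rw [← hD] at h2 ⊢
  rw [← hi] at h2 ⊢
  rw [← ht] at h1 ⊢
  rw [← hm] at h2 ⊢
  have hk0 : k ≠ 0 := hk.ne'
  field_simp
  linear_combination h1 - 2 * k * h2

/-- Proof. `norm_cen` and `0 ≤ ‖x - cen K‖²`, `K.card ≥ 1`. -/
theorem mn_ge {K : Finset (E d)} (hK : Clq K) (hne : K.Nonempty) (x : E d) : -1 ≤ mn K x := by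
  have h1 := norm_cen hK hne x
  have hk : (1 : ℝ) ≤ K.card := by exact_mod_cast hne.card_pos
  have h2 : 0 ≤ ‖x - cen K‖ ^ 2 := by positivity
  have h3 : ((K.card : ℝ) + 1) / (2 * K.card) ≤ 1 := by
    rw [div_le_one (by linarith)]
    linarith
  linarith

end Pool.Agent.Lib.H46AE
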