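import Pool.Agent.Lib.H46AE.A1

/-!
# Project H46AE, chunk A2: concentration of the squared distances to a unit clique
-/

open Finset

namespace Pool.Agent.Lib.H46AE

open Pool.Agent.Lib.Helper17.AE

variable {d : ℕ}

private theorem A2_inner {K : Finset (E d)} (hK : Clq K) (x : E d) {y z : E d} (hy : y ∈ K)
    (hz : z ∈ K) : inner ℝ (y - x) (z - x) =
      (1 + ex x y + ex x z + (if y = z then (1 : ℝ) else 0)) / 2 := by
  have h1 : ‖y - x‖ = dist x y := by rw [dist_comm, dist_eq_norm]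
  have h2 : ‖z - x‖ = dist x z := by rw [dist_comm, dist_eq_norm]
  have h3 : ‖y - x - (z - x)‖ = dist y z := by
    rw [dist_eq_norm]
    congr 1
    abel
  rw [real_inner_eq_norm_mul_self_add_norm_mul_self_sub_norm_sub_mul_self_div_two, h1, h2, h3]
  unfold ex
  by_cases hyz : y = z
  · rw [if_pos hyz, hyz, dist_self]
    ring
  · rw [if_neg hyz, hK y hy z hz hyz]
    ring

private theorem A2_double {α : Type*} [DecidableEq α] (K : Finset α) (w e : α → ℝ) :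
    ∑ y ∈ K, ∑ z ∈ K, w y * (w z * ((1 + e y + e z + (if y = z then (1 : ℝ) else 0)) / 2)) =
      ((∑ y ∈ K, w y) ^ 2 + 2 * (∑ y ∈ K, w y * e y) * (∑ y ∈ K, w y) + ∑ y ∈ K, w y ^ 2) / 2 := by
  have h1 : ∀ y ∈ K, ∑ z ∈ K, w y * (w z * ((1 + e y + e z + (if y = z then (1 : ℝ) else 0)) / 2)) =
      (∑ z ∈ K, w z) / 2 * w y + (∑ z ∈ K, w z) / 2 * (w y * e y) +
        (∑ z ∈ K, w z * e z) / 2 * w y + 1 / 2 * w y ^ 2 := by
    intro y hy
    have h2 : ∀ z ∈ K, w y * (w z * ((1 + e y + e z + (if y = z then (1 : ℝ) else 0)) / 2)) =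
        (w y * (1 + e y) / 2) * w z + (w y / 2) * (w z * e z) +
          (if y = z then w y * w z / 2 else 0) := by
      intro z _
      by_cases hyz : y = z
      · rw [if_pos hyz, if_pos hyz]
        ring
      · rw [if_neg hyz, if_neg hyz]
        ring
    rw [Finset.sum_congr rfl h2, Finset.sum_add_distrib, Finset.sum_add_distrib, ← Finset.mul_sum,
      ← Finset.mul_sum, Finset.sum_ite_eq, if_pos hy]
    ring
  rw [Finset.sum_congr rfl h1, Finset.sum_add_distrib, Finset.sum_add_distrib,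
    Finset.sum_add_distrib, ← Finset.mul_sum, ← Finset.mul_sum, ← Finset.mul_sum, ← Finset.mul_sum]
  ring

/-- Proof. `b y = ex x y - mn K x`, so `∑ b y = 0`; `B = ∑ (b y)²`; `p = ∑ b y • y`, `o = cen K`. `0 ≤ ‖p + (x - o)‖² = ‖p‖² + 2⟪p, x - o⟫ + ‖x - o‖²`.
`‖p‖² = ∑∑ b y b y' ⟪y,y'⟫ = ∑∑ b y b y' (‖y‖² + ‖y'‖² - dist²)/2 = -(1/2) ∑_{y≠y'} b y b y' = B/2` (use `∑ b = 0` three times).
`⟪y, x⟫ = (‖x‖² + ‖y‖² - 1 - ex x y)/2`, `⟪y, o⟫ = (1/k) ∑_{y'} (‖y‖² + ‖y'‖² - dist²)/2 = ‖y‖²/2 + const` for `y ∈ K`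
(`∑_{y'} dist(y,y')² = k - 1`), so `⟪y, x - o⟫ = -ex x y/2 + const` and `⟪p, x - o⟫ = -(1/2) ∑ b y ex x y = -B/2`.
So `0 ≤ B/2 - B + ‖x - o‖²`, i.e. `B ≤ 2‖x - o‖² = 2 mn K x + (k+1)/k` (`norm_cen`). -/
theorem var_le {K : Finset (E d)} (hK : Clq K) (hne : K.Nonempty) (x : E d) :
    ∑ y ∈ K, (ex x y - mn K x) ^ 2 ≤ 2 * mn K x + 1 + 1 / K.card := by
  classical
  have hk : (0 : ℝ) < K.card := by
    exact_mod_cast Finset.card_pos.mpr hne
  have hsum : ∑ y ∈ K, ex x y = K.card * mn K x := by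
    unfold mn
    rw [← mul_assoc, mul_inv_cancel₀ hk.ne', one_mul]
  have hs0 : ∑ y ∈ K, (ex x y - mn K x) = 0 := by
    rw [Finset.sum_sub_distrib, hsum, Finset.sum_const, nsmul_eq_mul, sub_self]
  have hS : ∑ y ∈ K, (ex x y - mn K x - (K.card : ℝ)⁻¹) = -1 := by
    rw [Finset.sum_sub_distrib, hs0, Finset.sum_const, nsmul_eq_mul, mul_inv_cancel₀ hk.ne']
    ring
  have hT : ∑ y ∈ K, (ex x y - mn K x - (K.card : ℝ)⁻¹) * ex x y =
      ∑ y ∈ K, (ex x y - mn K x) ^ 2 - mn K x := by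
    have h1 : ∀ y ∈ K, (ex x y - mn K x - (K.card : ℝ)⁻¹) * ex x y =
        (ex x y - mn K x) ^ 2 + mn K x * (ex x y - mn K x) - (K.card : ℝ)⁻¹ * ex x y := by
      intro y _
      ring
    rw [Finset.sum_congr rfl h1, Finset.sum_sub_distrib, Finset.sum_add_distrib, ← Finset.mul_sum,
      ← Finset.mul_sum, hs0, hsum, ← mul_assoc, inv_mul_cancel₀ hk.ne']
    ring
  have hQ : ∑ y ∈ K, (ex x y - mn K x - (K.card : ℝ)⁻¹) ^ 2 =
      ∑ y ∈ K, (ex x y - mn K x) ^ 2 + 1 / K.card := by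
    have h1 : ∀ y ∈ K, (ex x y - mn K x - (K.card : ℝ)⁻¹) ^ 2 =
        (ex x y - mn K x) ^ 2 - 2 * (K.card : ℝ)⁻¹ * (ex x y - mn K x) + (K.card : ℝ)⁻¹ ^ 2 := by
      intro y _
      ring
    rw [Finset.sum_congr rfl h1, Finset.sum_add_distrib, Finset.sum_sub_distrib, ← Finset.mul_sum,
      hs0, Finset.sum_const, nsmul_eq_mul]
    field_simp
    ring
  have hq : (0 : ℝ) ≤ inner ℝ (∑ y ∈ K, (ex x y - mn K x - (K.card : ℝ)⁻¹) • (y - x))
      (∑ y ∈ K, (ex x y - mn K x - (K.card : ℝ)⁻¹) • (y - x)) := real_inner_self_nonneg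
  have hexp : inner ℝ (∑ y ∈ K, (ex x y - mn K x - (K.card : ℝ)⁻¹) • (y - x))
      (∑ y ∈ K, (ex x y - mn K x - (K.card : ℝ)⁻¹) • (y - x)) =
      ∑ y ∈ K, ∑ z ∈ K, (ex x y - mn K x - (K.card : ℝ)⁻¹) *
        ((ex x z - mn K x - (K.card : ℝ)⁻¹) *
          ((1 + ex x y + ex x z + (if y = z then (1 : ℝ) else 0)) / 2)) := by
    rw [sum_inner]
    refine Finset.sum_congr rfl fun y hy => ?_
    rw [inner_sum]
    refine Finset.sum_congr rfl fun z hz => ?_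
    rw [real_inner_smul_left, real_inner_smul_right, A2_inner hK x hy hz]
  rw [hexp, A2_double K (fun y => ex x y - mn K x - (K.card : ℝ)⁻¹) (fun y => ex x y), hS, hT,
    hQ] at hq
  linarith

end Pool.Agent.Lib.H46AE
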