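import Pool.Agent.Lib.H46AE.A1

/-!
# Project H46AE, chunk A3: the sum inequality
-/

open Finset

namespace Pool.Agent.Lib.H46AE

open Pool.Agent.Lib.Helper17.AE

variable {d : ℕ}

private theorem A3_inner {K : Finset (E d)} (hK : Clq K) (hne : K.Nonempty) (z w : E d) :
    2 * inner ℝ (z - cen K) (w - cen K) = mn K z + mn K w + 1 / K.card - ex z w := by
  have hk : (0 : ℝ) < K.card := by exact_mod_cast hne.card_pos
  have h1 := norm_cen hK hne z
  have h2 := norm_cen hK hne w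
  have h3 := norm_sub_sq_real (z - cen K) (w - cen K)
  rw [sub_sub_sub_cancel_right, ← dist_eq_norm, h1, h2] at h3
  have h4 : ((K.card : ℝ) + 1) / (2 * K.card) = 1 / 2 + 1 / K.card / 2 := by
    field_simp
  rw [h4] at h3
  unfold ex
  linarith

/-- Proof. `o = cen K`, `k = K.card`, `N = Z.card`, `v z = z - o`. Cauchy-Schwarz: `⟪∑ v z, x - o⟫² ≤ ‖∑ v z‖² ‖x - o‖²`.
`⟪v z, x - o⟫ = (‖z - o‖² + ‖x - o‖² - dist(z,x)²)/2 = (mn K z + mn K x + 1/k)/2` (`norm_cen`; `(k+1)/k - 1 = 1/k`).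
For `z ≠ w` in `Z`: `⟪v z, v w⟫ = (‖z-o‖² + ‖w-o‖² - dist(z,w)²)/2 = (mn K z + mn K w + 1/k - ex z w)/2`; `⟪v z, v z⟫ = mn K z + (k+1)/(2k)`.
So `‖∑ v z‖² = N ∑ mn K z + N/2 + N²/(2k) - (1/2) ∑_z ∑_{w ≠ z} ex z w`, and `4‖x - o‖² = 4 mn K x + 2 + 2/k`.
(Equivalently for all `z, w`, also `z = w`: `⟪v z, v w⟫ = (mn K z + mn K w + 1/k - ex z w)/2` with `ex z z = -1`.) -/
theorem sum_ineq {K : Finset (E d)} (hK : Clq K) (hne : K.Nonempty) (x : E d) (Z : Finset (E d))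
    (hZ : ∀ z ∈ Z, dist z x = 1) :
    (∑ z ∈ Z, mn K z + Z.card * (mn K x + 1 / K.card)) ^ 2 ≤
      (4 * mn K x + 2 + 2 / K.card) *
        (Z.card * ∑ z ∈ Z, mn K z + Z.card / 2 + Z.card ^ 2 / (2 * K.card) -
          (∑ z ∈ Z, ∑ w ∈ Z.erase z, ex z w) / 2) := by
  have hk : (0 : ℝ) < K.card := by exact_mod_cast hne.card_pos
  obtain ⟨o, ho⟩ : ∃ o : E d, o = cen K := ⟨_, rfl⟩
  have hin : ∀ z w : E d, 2 * inner ℝ (z - o) (w - o) = mn K z + mn K w + 1 / K.card - ex z w := by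
    intro z w
    rw [ho]
    exact A3_inner hK hne z w
  obtain ⟨s, hs⟩ : ∃ s : E d, s = ∑ z ∈ Z, (z - o) := ⟨_, rfl⟩
  have h1 : 2 * inner ℝ s (x - o) = ∑ z ∈ Z, mn K z + Z.card * (mn K x + 1 / K.card) := by
    rw [hs, sum_inner, Finset.mul_sum]
    have h2 : ∀ z ∈ Z, 2 * inner ℝ (z - o) (x - o) = mn K z + (mn K x + 1 / K.card) := by
      intro z hz
      rw [hin, ex_of_unit (hZ z hz)]
      ring
    rw [Finset.sum_congr rfl h2, Finset.sum_add_distrib, Finset.sum_const, nsmul_eq_mul]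
  have h3 : 4 * ‖x - o‖ ^ 2 = 4 * mn K x + 2 + 2 / K.card := by
    have h4 := hin x x
    rw [real_inner_self_eq_norm_sq] at h4
    have h5 : ex x x = -1 := by
      unfold ex
      rw [dist_self]
      norm_num
    rw [h5] at h4
    have h6 : (2 : ℝ) / K.card = 2 * (1 / K.card) := by ring
    rw [h6]
    linarith
  have h7 : ‖s‖ ^ 2 = Z.card * ∑ z ∈ Z, mn K z + Z.card / 2 + Z.card ^ 2 / (2 * K.card) -
      (∑ z ∈ Z, ∑ w ∈ Z.erase z, ex z w) / 2 := by
    have h8 : 2 * ‖s‖ ^ 2 = ∑ z ∈ Z, ∑ w ∈ Z, (mn K z + mn K w + 1 / K.card - ex z w) := by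
      rw [← real_inner_self_eq_norm_sq]
      conv_lhs => rw [hs]
      rw [sum_inner, Finset.mul_sum]
      refine Finset.sum_congr rfl fun z _ => ?_
      rw [inner_sum, Finset.mul_sum]
      exact Finset.sum_congr rfl fun w _ => hin z w
    have h9 : ∀ z ∈ Z, ∑ w ∈ Z, (mn K z + mn K w + 1 / K.card - ex z w) =
        Z.card * mn K z + ∑ w ∈ Z, mn K w + Z.card * (1 / K.card) + 1 - ∑ w ∈ Z.erase z, ex z w := by
      intro z hz
      have h10 : ∑ w ∈ Z, ex z w = ex z z + ∑ w ∈ Z.erase z, ex z w :=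
        (Finset.add_sum_erase Z (fun w => ex z w) hz).symm
      have h5 : ex z z = -1 := by
        unfold ex
        rw [dist_self]
        norm_num
      rw [Finset.sum_sub_distrib, Finset.sum_add_distrib, Finset.sum_add_distrib, h10, h5, Finset.sum_const,
        Finset.sum_const, nsmul_eq_mul, nsmul_eq_mul]
      ring
    rw [Finset.sum_congr rfl h9, Finset.sum_sub_distrib, Finset.sum_add_distrib, Finset.sum_add_distrib,
      Finset.sum_add_distrib, ← Finset.mul_sum, Finset.sum_const, Finset.sum_const, Finset.sum_const, nsmul_eq_mul,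
      nsmul_eq_mul, nsmul_eq_mul] at h8
    have h11 : (Z.card : ℝ) ^ 2 / (2 * K.card) = Z.card * (Z.card * (1 / K.card)) / 2 := by
      field_simp
    rw [h11]
    linarith
  have h12 : inner ℝ s (x - o) ^ 2 ≤ ‖s‖ ^ 2 * ‖x - o‖ ^ 2 := by
    have h13 := abs_real_inner_le_norm s (x - o)
    rw [← mul_pow, ← sq_abs (inner ℝ s (x - o))]
    exact pow_le_pow_left₀ (abs_nonneg _) h13 2
  rw [← h1, ← h3, ← h7]
  nlinarith [h12]

end Pool.Agent.Lib.H46AE
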