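import Pool.Agent.Lib.H46AE.A3

/-!
# Project H46AE, chunk A4: the key inequality
-/

open Finset

namespace Pool.Agent.Lib.H46AE

open Pool.Agent.Lib.Helper17.AE

variable {d : ℕ}

private theorem a4_real (N k a m S M s : ℝ) (hN : 0 < N) (hk : 1 ≤ k)
    (h : (m + N * (a + 1 / k)) ^ 2 ≤
      (4 * a + 2 + 2 / k) * (N * m + N / 2 + N ^ 2 / (2 * k) - S / 2))
    (hpos : 0 ≤ 4 * a + 2 + 2 / k) (ha : -1 ≤ a) (hM : |m| ≤ M) (hs0 : 0 ≤ s) (hs : -s ≤ S) :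
    a ^ 2 - 1 / k ≤ (1 + a) * (2 * (1 / N + s / N ^ 2) + 2 * (M / N)) := by
  have hk0 : (0 : ℝ) < k := lt_of_lt_of_le one_pos hk
  obtain ⟨t, ht⟩ : ∃ t, t = 1 / k := ⟨_, rfl⟩
  obtain ⟨u, hu⟩ : ∃ u, u = 1 / N := ⟨_, rfl⟩
  have ht1 : t ≤ 1 := by
    rw [ht, div_le_one hk0]
    exact hk
  have hu0 : 0 < u := by
    rw [hu]
    positivity
  have hNu : N * u = 1 := by
    rw [hu]
    field_simp
  have e1 : (2 : ℝ) / k = 2 * t := by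
    rw [ht]
    ring
  have e2 : N ^ 2 / (2 * k) = N ^ 2 * t / 2 := by
    rw [ht]
    field_simp
  have e3 : s / N ^ 2 = s * u ^ 2 := by
    rw [hu]
    field_simp
  have e4 : M / N = M * u := by
    rw [hu]
    field_simp
  rw [← ht, e1, e2] at h
  rw [e1] at hpos
  rw [← ht, ← hu, e3, e4]
  have h1 := mul_le_mul_of_nonneg_right h (sq_nonneg u)
  have e5 : (m + N * (a + t)) ^ 2 * u ^ 2 = (m * u + (N * u) * (a + t)) ^ 2 := by ring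
  have e6 : (4 * a + 2 + 2 * t) * (N * m + N / 2 + N ^ 2 * t / 2 - S / 2) * u ^ 2 =
      (4 * a + 2 + 2 * t) * ((N * u) * (m * u) + (N * u) * u / 2 + (N * u) ^ 2 * t / 2 -
        S * u ^ 2 / 2) := by ring
  rw [e5, e6, hNu] at h1
  have hmu : m * u ≤ M * u := mul_le_mul_of_nonneg_right (le_trans (le_abs_self m) hM) hu0.le
  have h2 : (1 + a) * (m * u) ≤ (1 + a) * (M * u) :=
    mul_le_mul_of_nonneg_left hmu (by linarith)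
  have hu2 : 0 ≤ u ^ 2 := sq_nonneg u
  have h3 : -(S * u ^ 2) ≤ s * u ^ 2 := by nlinarith
  have h4 : (4 * a + 2 + 2 * t) * (u / 2 - S * u ^ 2 / 2) ≤
      (4 * a + 2 + 2 * t) * (u / 2 + s * u ^ 2 / 2) :=
    mul_le_mul_of_nonneg_left (by linarith) hpos
  have h5 : 0 ≤ u / 2 + s * u ^ 2 / 2 := by positivity
  have h6 : (4 * a + 2 + 2 * t) * (u / 2 + s * u ^ 2 / 2) ≤
      (4 * (1 + a)) * (u / 2 + s * u ^ 2 / 2) :=
    mul_le_mul_of_nonneg_right (by linarith) h5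
  nlinarith [sq_nonneg (m * u)]

/-- Proof. `N = Z.card > 0`, `a = mn K x`, `k = K.card ≥ 1`, `m = (∑ mn K z)/N`, `S = ∑∑ ex z w ≥ -s`, `η = 1/(2N) - S/(2N²)`. Divide `sum_ineq` by `N²`:
`(m + a + 1/k)² ≤ (4a + 2 + 2/k)(m + η + 1/(2k))`. Expand: `(4a+2+2/k)/(2k) = 2a/k + 1/k + 1/k²`, `(m + a + 1/k)² = m² + 2m(a + 1/k) + a² + 2a/k + 1/k²`;
so `a² - 1/k ≤ (4a+2+2/k)η + 2m(1 + a) - m²`. Here `0 ≤ 4a + 2 + 2/k ≤ 4(1 + a)` (`norm_cen`; `1/k ≤ 1`), `η ≤ 1/(2N) + s/(2N²)`, which is `≥ 0`,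
`m ≤ M/N` (`M ≥ 0`), `1 + a ≥ 0` (`mn_ge`); drop `-m²`. -/
theorem key_ineq {K : Finset (E d)} (hK : Clq K) (hne : K.Nonempty) (x : E d) (Z : Finset (E d))
    (hZ : ∀ z ∈ Z, dist z x = 1) (hZne : Z.Nonempty) {M s : ℝ} (hM : |∑ z ∈ Z, mn K z| ≤ M)
    (hs0 : 0 ≤ s) (hs : -s ≤ ∑ z ∈ Z, ∑ w ∈ Z.erase z, ex z w) :
    mn K x ^ 2 - 1 / K.card ≤
      (1 + mn K x) * (2 * (1 / Z.card + s / Z.card ^ 2) + 2 * (M / Z.card)) := by
  have hN : (0 : ℝ) < (Z.card : ℝ) := by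
    exact_mod_cast hZne.card_pos
  have hk : (1 : ℝ) ≤ (K.card : ℝ) := by
    exact_mod_cast hne.card_pos
  have h := sum_ineq hK hne x Z hZ
  have hpos : (0 : ℝ) ≤ 4 * mn K x + 2 + 2 / K.card := by
    have h1 := norm_cen hK hne x
    have h2 : (0 : ℝ) ≤ ‖x - cen K‖ ^ 2 := sq_nonneg _
    have hk0 : (0 : ℝ) < (K.card : ℝ) := lt_of_lt_of_le one_pos hk
    have h3 : ((K.card : ℝ) + 1) / (2 * K.card) * 4 = 2 + 2 / K.card := by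
      field_simp
      norm_num
    rw [h1] at h2
    linarith
  exact a4_real _ _ _ _ _ _ _ hN hk h hpos (mn_ge hK hne x) hM hs0 hs

end Pool.Agent.Lib.H46AE
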