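import Pool.Agent.Lib.H46AE.Defs

/-!
# Project H46AE, chunk B1: the maximizing pair
-/

open Finset

namespace Pool.Agent.Lib.H46AE

open Pool.Agent.Lib.Helper17.AE

variable {d : ℕ}

/-- Proof. Finitely many pairs `(v, S)`, `v ∈ V`, `S ⊆ nbr V v` (`V.sigma` / `V.biUnion` with `powerset`, or `Finset.exists_max_image` twice). Let `W` be the
maximum of `|∑_{y ∈ S} ex v y|`, at `(x, S)`. `W > 0`: `hne` gives `y ∈ nbr V v`, take `S = {y}`, `ex v y ≠ 0` (`ex_ne_of_nbr`). If `∑_S ≥ 0` let `T` be the set of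
the `y ∈ S` with `ex x y > 0`: `∑_T ≥ ∑_S = W`, and `≤ W` by maximality. Otherwise the `y ∈ S` with `ex x y < 0`. `T ≠ ∅` as `W > 0`. For `y ∈ T`:
`y ∈ nbr V x`, so `dist x y ≠ 1` and `c ≤ |ex x y|` (`hgap`), with the sign: `c ≤ ex x y`, resp. `ex x y ≤ -c`. -/
theorem exists_top {V : Finset (E d)} {c : ℝ} (hgap : Gap V c)
    (hne : ∃ x ∈ V, (nbr V x).Nonempty) : ∃ x T W, Top V c x T W := by
  classical
  obtain ⟨v, hv, y, hy⟩ := hne
  have hP : (V.sigma fun v => (nbr V v).powerset).Nonempty :=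
    ⟨⟨v, ∅⟩, Finset.mem_sigma.2 ⟨hv, Finset.mem_powerset.2 (Finset.empty_subset _)⟩⟩
  obtain ⟨⟨x, S⟩, hp, hmax⟩ := Finset.exists_max_image
    (V.sigma fun v => (nbr V v).powerset) (fun p => |∑ y ∈ p.2, ex p.1 y|) hP
  obtain ⟨hx, hS⟩ := Finset.mem_sigma.1 hp
  have hx' : x ∈ V := hx
  have hS' : S ⊆ nbr V x := Finset.mem_powerset.1 hS
  have hmax' : ∀ u ∈ V, ∀ R ⊆ nbr V u, |∑ y ∈ R, ex u y| ≤ |∑ y ∈ S, ex x y| := by
    intro u hu R hR
    exact hmax ⟨u, R⟩ (Finset.mem_sigma.2 ⟨hu, Finset.mem_powerset.2 hR⟩)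
  have hWpos : 0 < |∑ y ∈ S, ex x y| := by
    have h1 := hmax' v hv {y} (Finset.singleton_subset_iff.2 hy)
    rw [Finset.sum_singleton] at h1
    exact lt_of_lt_of_le (abs_pos.2 (ex_ne_of_nbr hy)) h1
  have habs : ∀ z ∈ S, c ≤ |ex x z| := by
    intro z hz
    have h1 := mem_nbr.1 (hS' hz)
    rcases hgap x hx' z h1.1 (by
      rintro rfl
      exact h1.2.1 rfl) with h2 | h2
    · exact absurd h2 h1.2.2
    · exact h2
  rcases le_or_gt 0 (∑ y ∈ S, ex x y) with h0 | h0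
  · have h1 := Finset.sum_filter_add_sum_filter_not S (fun y => 0 < ex x y) (fun y => ex x y)
    have h2 : ∑ y ∈ S with ¬ 0 < ex x y, ex x y ≤ 0 :=
      Finset.sum_nonpos fun z hz => not_lt.1 (Finset.mem_filter.1 hz).2
    have hT : S.filter (fun y => 0 < ex x y) ⊆ nbr V x := (Finset.filter_subset _ _).trans hS'
    have h3 := hmax' x hx' _ hT
    have h4 : |∑ y ∈ S, ex x y| ≤ |∑ y ∈ S with 0 < ex x y, ex x y| := by
      rw [abs_of_nonneg h0]
      exact le_trans (by linarith) (le_abs_self _)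
    refine ⟨x, S.filter (fun y => 0 < ex x y), |∑ y ∈ S, ex x y|, hx', hT, ?_, Or.inl ?_,
      le_antisymm h3 h4, hmax'⟩
    · by_contra hne
      rw [Finset.not_nonempty_iff_eq_empty] at hne
      rw [hne, Finset.sum_empty, abs_zero] at h4
      exact absurd h4 (not_le.2 hWpos)
    · intro z hz
      have h5 := Finset.mem_filter.1 hz
      have h6 := habs z h5.1
      rwa [abs_of_pos h5.2] at h6
  · have h1 := Finset.sum_filter_add_sum_filter_not S (fun y => ex x y < 0) (fun y => ex x y)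
    have h2 : 0 ≤ ∑ y ∈ S with ¬ ex x y < 0, ex x y :=
      Finset.sum_nonneg fun z hz => not_lt.1 (Finset.mem_filter.1 hz).2
    have hT : S.filter (fun y => ex x y < 0) ⊆ nbr V x := (Finset.filter_subset _ _).trans hS'
    have h3 := hmax' x hx' _ hT
    have h4 : |∑ y ∈ S, ex x y| ≤ |∑ y ∈ S with ex x y < 0, ex x y| := by
      rw [abs_of_neg h0]
      exact le_trans (by linarith) (neg_le_abs _)
    refine ⟨x, S.filter (fun y => ex x y < 0), |∑ y ∈ S, ex x y|, hx', hT, ?_, Or.inr ?_,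
      le_antisymm h3 h4, hmax'⟩
    · by_contra hne
      rw [Finset.not_nonempty_iff_eq_empty] at hne
      rw [hne, Finset.sum_empty, abs_zero] at h4
      exact absurd h4 (not_le.2 hWpos)
    · intro z hz
      have h5 := Finset.mem_filter.1 hz
      have h6 := habs z h5.1
      rw [abs_of_neg h5.2] at h6
      linarith

variable {V : Finset (E d)} {c W : ℝ} {x : E d} {T : Finset (E d)}

/-- Proof. `T.card * |mn T x| = |∑_{y ∈ T} ex x y| = W`. -/
theorem Top.mul_abs (h : Top V c x T W) : T.card * |mn T x| = W := by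
  have h1 : (0 : ℝ) < T.card := by exact_mod_cast h.ne.card_pos
  unfold mn
  rw [abs_mul, abs_of_nonneg (inv_nonneg.2 h1.le), h.sum, ← mul_assoc, mul_inv_cancel₀ h1.ne',
    one_mul]

/-- Proof. All `ex x y`, `y ∈ T`, are `≥ c`, or all are `≤ -c`; so is their mean. -/
theorem Top.le_abs (h : Top V c x T W) : c ≤ |mn T x| := by
  have h1 : (0 : ℝ) < T.card := by exact_mod_cast h.ne.card_pos
  rcases h.sgn with h2 | h2
  · have h3 : (T.card : ℝ) * c ≤ ∑ y ∈ T, ex x y := by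
      rw [← nsmul_eq_mul]
      exact Finset.card_nsmul_le_sum T _ _ h2
    have h4 : c ≤ mn T x := by
      unfold mn
      rw [inv_mul_eq_div, le_div_iff₀ h1, mul_comm]
      exact h3
    exact h4.trans (le_abs_self _)
  · have h3 : ∑ y ∈ T, ex x y ≤ (T.card : ℝ) * (-c) := by
      rw [← nsmul_eq_mul]
      exact Finset.sum_le_card_nsmul T _ _ h2
    have h4 : mn T x ≤ -c := by
      unfold mn
      rw [inv_mul_eq_div, div_le_iff₀ h1, mul_comm]
      exact h3
    have h5 := neg_le_abs (mn T x)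
    linarith

/-- Proof. For `y ∈ V` and `S ⊆ V`: `∑_{z ∈ S.erase y} ex y z = ∑_{z ∈ S ∩ nbr V y} ex y z`: for `z ∈ S`, `z ≠ y`, `z ∉ nbr V y` is `dist y z = 1`
(`unit_of_not_nbr`), `ex y z = 0`; `y ∉ nbr V y`. Then `h.max`. -/
theorem Top.row (h : Top V c x T W) {y : E d} (hy : y ∈ V) {S : Finset (E d)} (hS : S ⊆ V) :
    |∑ z ∈ S.erase y, ex y z| ≤ W := by
  classical
  have h1 : ∑ z ∈ S.filter (fun z => z ∈ nbr V y), ex y z = ∑ z ∈ S.erase y, ex y z := by
    refine Finset.sum_subset (fun z hz => ?_) (fun z hz hz' => ?_)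
    · have h2 := Finset.mem_filter.1 hz
      refine Finset.mem_erase.2 ⟨?_, h2.1⟩
      rintro rfl
      exact (mem_nbr.1 h2.2).2.1 rfl
    · obtain ⟨h2, h3⟩ := Finset.mem_erase.1 hz
      have h4 : z ∉ nbr V y := fun h5 => hz' (Finset.mem_filter.2 ⟨h3, h5⟩)
      exact ex_of_unit (unit_of_not_nbr (hS h3) h2 h4)
  rw [← h1]
  exact h.max y hy _ (fun z hz => (Finset.mem_filter.1 hz).2)

end Pool.Agent.Lib.H46AE
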