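import Pool.Agent.Lib.H46AE.A4
import Pool.Agent.Lib.H46AE.B1

/-!
# Project H46AE, chunk B2: few points at distance one from x if the energy is large
-/

open Finset

namespace Pool.Agent.Lib.H46AE

open Pool.Agent.Lib.Helper17.AE

variable {d : ℕ}

variable {V : Finset (E d)} {c W : ℝ} {x : E d} {T : Finset (E d)}

/-- Proof. `Z = sph V x`, `N = Z.card`; trivial if `N = 0`. `K = T` is a unit clique (`clq_nbr`, `h.sub`), `k = T.card`, `a = mn T x`, `W = k |a|` (`mul_abs`).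
`key_ineq` with `M = W`, `s = N W`: (1) `∑_{z ∈ Z} mn T z = (1/k) ∑_{y ∈ T} ∑_{z ∈ Z} ex y z` (`ex_comm`), and `|∑_{z ∈ Z} ex y z| ≤ W` for `y ∈ T` by `Top.row`
(`y ∉ Z` since `dist x y ≠ 1`, so `Z.erase y = Z`), hence `|∑ mn T z| ≤ W`. (2) `∑_z ∑_{w ∈ Z.erase z} ex z w ≥ -N W` by `Top.row` (`Z ⊆ V`). So
`a² - 1/k ≤ (1 + a)(2(1/N + W/N) + 2W/N) = (1 + a)(2 + 4W)/N`. As `k a² ≥ 4`, `1/k ≤ a²/4`: `(3/4) a² N ≤ (1 + a)(2 + 4W)`, `W = k|a|`, `a ≥ -1` (`mn_ge`).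
If `|a| ≤ 1`: `1 + a ≤ 2`, `W = k|a| ≥ k a² ≥ 4`, so `2 + 4W ≤ (9/2) W` and `(3/4) a² N ≤ 9 k |a|`, `|a| N ≤ 12 k`; `c ≤ |a|` (`le_abs`).
If `a > 1`: `1 + a ≤ 2a`, `(3/4) a N ≤ 2(2 + 4 k a) ≤ 12 k a`, `N ≤ 16 k`, `c ≤ 1`. -/
theorem far_card (hV : AlmostEq V) (hc : 0 < c) (hc1 : c ≤ 1) (h : Top V c x T W)
    (he : 4 ≤ T.card * mn T x ^ 2) : ((sph V x).card : ℝ) * c ≤ 16 * T.card := by
  classical
  rcases (sph V x).eq_empty_or_nonempty with hZ0 | hZne
  · rw [hZ0, Finset.card_empty, Nat.cast_zero, zero_mul]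
    positivity
  have hkpos : 0 < T.card := Finset.card_pos.2 h.ne
  have hNpos : 0 < (sph V x).card := Finset.card_pos.2 hZne
  have hk1 : (1 : ℝ) ≤ T.card := by exact_mod_cast hkpos
  have hN1 : (1 : ℝ) ≤ (sph V x).card := by exact_mod_cast hNpos
  have hW0 : 0 ≤ W := by
    rw [← h.sum]
    exact abs_nonneg _
  have hK : Clq T := (clq_nbr hV h.mem).mono h.sub
  have hZV : sph V x ⊆ V := fun z hz => (mem_sph.1 hz).1
  have hrow : ∀ y ∈ T, |∑ z ∈ sph V x, ex y z| ≤ W := by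
    intro y hy
    obtain ⟨h1, h2, h3⟩ := mem_nbr.1 (h.sub hy)
    have hyZ : y ∉ sph V x := by
      intro hy'
      have h4 := (mem_sph.1 hy').2
      rw [dist_comm] at h4
      exact h3 h4
    have h5 := h.row h1 hZV
    rwa [Finset.erase_eq_of_notMem hyZ] at h5
  have hM : |∑ z ∈ sph V x, mn T z| ≤ W := by
    have e1 : ∑ z ∈ sph V x, mn T z = (T.card : ℝ)⁻¹ * ∑ y ∈ T, ∑ z ∈ sph V x, ex y z := by
      unfold mn
      rw [← Finset.mul_sum, Finset.sum_comm]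
      congr 1
      exact Finset.sum_congr rfl fun y _ => Finset.sum_congr rfl fun z _ => ex_comm z y
    rw [e1, abs_mul, abs_of_nonneg (by positivity : (0 : ℝ) ≤ (T.card : ℝ)⁻¹),
      inv_mul_le_iff₀ (by linarith)]
    refine (Finset.abs_sum_le_sum_abs _ _).trans ((Finset.sum_le_sum hrow).trans ?_)
    rw [Finset.sum_const, nsmul_eq_mul]
  have hs : -(((sph V x).card : ℝ) * W) ≤
      ∑ z ∈ sph V x, ∑ w ∈ (sph V x).erase z, ex z w := by
    have e1 : ∑ _z ∈ sph V x, (-W) ≤ ∑ z ∈ sph V x, ∑ w ∈ (sph V x).erase z, ex z w := by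
      refine Finset.sum_le_sum fun z hz => ?_
      exact (abs_le.1 (h.row (hZV hz) hZV)).1
    rw [Finset.sum_const, nsmul_eq_mul] at e1
    linarith
  have key := key_ineq hK h.ne x (sph V x) (fun z hz => (mem_sph.1 hz).2) hZne hM
    (by positivity : 0 ≤ ((sph V x).card : ℝ) * W) hs
  have hca := h.le_abs
  have hmul := h.mul_abs
  have hge : -1 ≤ mn T x := mn_ge hK h.ne x
  obtain ⟨a, ha⟩ : ∃ a, a = mn T x := ⟨_, rfl⟩
  obtain ⟨k, hk⟩ : ∃ k : ℝ, k = T.card := ⟨_, rfl⟩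
  obtain ⟨N, hN⟩ : ∃ N : ℝ, N = (sph V x).card := ⟨_, rfl⟩
  rw [← ha] at key he hca hmul hge
  rw [← hk] at key he hmul hk1 ⊢
  rw [← hN] at key hN1 ⊢
  have hN0 : 0 < N := by linarith
  have hk0 : 0 < k := by linarith
  have e1 : (1 + a) * (2 * (1 / N + N * W / N ^ 2) + 2 * (W / N)) = (1 + a) * (2 + 4 * W) / N := by
    field_simp
    ring
  rw [e1, le_div_iff₀ hN0] at key
  have hinv : 1 / k ≤ a ^ 2 / 4 := by
    rw [div_le_div_iff₀ hk0 (by norm_num)]
    linarith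
  have h34 : 3 / 4 * a ^ 2 * N ≤ (1 + a) * (2 + 4 * W) := by
    refine le_trans ?_ key
    refine mul_le_mul_of_nonneg_right ?_ hN0.le
    linarith
  have habs0 : 0 < |a| := hc.trans_le hca
  have hsq : a ^ 2 = |a| ^ 2 := (sq_abs a).symm
  by_cases ha1 : |a| ≤ 1
  · have h1a : 1 + a ≤ 2 := by
      have := le_abs_self a
      linarith
    have h4W : 4 ≤ W := by
      rw [← hmul]
      calc (4 : ℝ) ≤ k * a ^ 2 := he
        _ = k * (|a| * |a|) := by rw [hsq, sq]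
        _ ≤ k * (|a| * 1) := by
            refine mul_le_mul_of_nonneg_left ?_ hk0.le
            exact mul_le_mul_of_nonneg_left ha1 habs0.le
        _ = k * |a| := by rw [mul_one]
    have h5 : (1 + a) * (2 + 4 * W) ≤ 9 * W := by
      have h6 : (1 + a) * (2 + 4 * W) ≤ 2 * (2 + 4 * W) :=
        mul_le_mul_of_nonneg_right h1a (by linarith)
      linarith
    have h7 : |a| * (3 / 4 * (|a| * N)) ≤ |a| * (9 * k) := by
      calc |a| * (3 / 4 * (|a| * N)) = 3 / 4 * a ^ 2 * N := by rw [hsq]; ring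
        _ ≤ 9 * W := h34.trans h5
        _ = |a| * (9 * k) := by rw [← hmul]; ring
    have h8 : 3 / 4 * (|a| * N) ≤ 9 * k := le_of_mul_le_mul_left h7 habs0
    have h9 : c * N ≤ |a| * N := mul_le_mul_of_nonneg_right hca hN0.le
    linarith
  · have ha2 : 1 < a := by
      rw [not_le] at ha1
      rcases lt_abs.1 ha1 with h1 | h1
      · exact h1
      · linarith
    have haa : |a| = a := abs_of_pos (by linarith)
    rw [haa] at hmul
    have h5 : (1 + a) * (2 + 4 * W) ≤ 2 * a * (2 + 4 * W) :=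
      mul_le_mul_of_nonneg_right (by linarith) (by linarith)
    have h6 : a * (3 / 4 * a * N) ≤ a * (2 * (2 + 4 * W)) := by
      calc a * (3 / 4 * a * N) = 3 / 4 * a ^ 2 * N := by ring
        _ ≤ 2 * a * (2 + 4 * W) := h34.trans h5
        _ = a * (2 * (2 + 4 * W)) := by ring
    have h7 : 3 / 4 * a * N ≤ 2 * (2 + 4 * W) := le_of_mul_le_mul_left h6 (by linarith)
    have h8 : 1 ≤ W := by
      rw [← hmul]
      nlinarith
    have h9 : a * (3 / 4 * N) ≤ a * (12 * k) := by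
      calc a * (3 / 4 * N) = 3 / 4 * a * N := by ring
        _ ≤ 12 * W := by linarith
        _ = a * (12 * k) := by rw [← hmul]; ring
    have h10 : 3 / 4 * N ≤ 12 * k := le_of_mul_le_mul_left h9 (by linarith)
    have h11 : N * c ≤ N * 1 := mul_le_mul_of_nonneg_left hc1 hN0.le
    linarith

end Pool.Agent.Lib.H46AE
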