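import Pool.Agent.Lib.H46AE.C1
import Pool.Agent.Lib.H46AE.A4
import Pool.Agent.Lib.H46AE.B1

/-!
# Project H46AE, chunk C5: cliques of points of the first kind
-/

open Finset

namespace Pool.Agent.Lib.H46AE

open Pool.Agent.Lib.Helper17.AE

variable {d : ℕ}

/-- Proof. `k = T.card`, `a = mn T x`, `N = Z.card`; trivial if `Z = ∅`. For `z ∈ Z` and `y ∈ T`: `ex z y = 0` or `c ≤ |ex z y|` (`hgap`; `z ≠ y` since `dist z x = 1`,
`dist x y ≠ 1`), `k c² ≥ k c³ > 98 ≥ 24`, so `|mn T z| ≤ 12/(ck)` (`mean_small`). `key_ineq` with `s = 0` (`Z` is a unit clique: `ex z w = 0`) and `M = 12 N/(ck)`: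
`a² - 1/k ≤ (1 + a)(2/N + 24/(ck))`. `1/k < c³/98 ≤ c²/98 ≤ a²/98` (`le_abs`), `24/(ck) ≤ 24c²/98`. So `(97/98) a² ≤ (1 + a)(2/N + 24c²/98)`.
If `|a| ≤ 1`: `(97/98) c² ≤ 4/N + 48c²/98`, `c²/2 ≤ 4/N`. If `a > 1` (`a < -1` is impossible, `mn_ge`): `1 + a ≤ 2a`, `(97/98) a ≤ 4/N + 48c²/98` and `c² ≤ 1 ≤ a`: the same. -/
theorem one_clique {V : Finset (E d)} {c W : ℝ} (hV : AlmostEq V) (hc : 0 < c) (hc1 : c ≤ 1)
    (hgap : Gap V c) {x : E d} {T : Finset (E d)} (h : Top V c x T W)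
    (hk : 98 < T.card * c ^ 3) {Z : Finset (E d)} (hZ : Z ⊆ sph V x)
    (hm : ∀ z ∈ Z, |mn T z| < c / 2) (hclq : Clq Z) : (Z.card : ℝ) * c ^ 2 ≤ 8 := by
  rcases Z.eq_empty_or_nonempty with rfl | hZne
  · rw [Finset.card_empty, Nat.cast_zero, zero_mul]
    norm_num
  have hT : Clq T := (clq_nbr hV h.mem).mono h.sub
  have hTne := h.ne
  have hk0 : (0 : ℝ) < T.card := by
    have := hTne.card_pos
    exact_mod_cast this
  have hN0 : (0 : ℝ) < Z.card := by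
    have := hZne.card_pos
    exact_mod_cast this
  have hc2 : c ^ 3 ≤ c ^ 2 := by nlinarith [mul_pos hc hc]
  have hk2 : 98 < T.card * c ^ 2 := lt_of_lt_of_le hk (mul_le_mul_of_nonneg_left hc2 hk0.le)
  have hck : 0 < c * T.card := mul_pos hc hk0
  have hzx : ∀ z ∈ Z, z ∈ V ∧ dist z x = 1 := fun z hz => mem_sph.1 (hZ hz)
  have hsm : ∀ z ∈ Z, |mn T z| ≤ 12 / (c * T.card) := by
    intro z hz
    rw [le_div_iff₀ hck]
    refine mean_small hT hTne hc hc1 z (hm z hz) ?_ (by linarith)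
    intro y hy
    have hy' := mem_nbr.1 (h.sub hy)
    have hne : z ≠ y := by
      rintro rfl
      apply hy'.2.2
      rw [dist_comm]
      exact (hzx z hz).2
    rcases hgap z (hzx z hz).1 y hy'.1 hne with h1 | h1
    · exact Or.inl (ex_of_unit h1)
    · exact Or.inr h1
  have hM : |∑ z ∈ Z, mn T z| ≤ Z.card * (12 / (c * T.card)) := by
    refine (Finset.abs_sum_le_sum_abs _ _).trans ?_
    refine (Finset.sum_le_sum hsm).trans ?_
    rw [Finset.sum_const, nsmul_eq_mul]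
  have hs : -(0 : ℝ) ≤ ∑ z ∈ Z, ∑ w ∈ Z.erase z, ex z w := by
    rw [neg_zero]
    refine Finset.sum_nonneg fun z hz => Finset.sum_nonneg fun w hw => ?_
    have hw' := Finset.mem_erase.1 hw
    rw [ex_of_unit (hclq z hz w hw'.2 (Ne.symm hw'.1))]
  have key := key_ineq hT hTne x Z (fun z hz => (hzx z hz).2) hZne hM le_rfl hs
  have ha := h.le_abs
  have hge := mn_ge hT hTne x
  obtain ⟨a, haa⟩ : ∃ a, a = mn T x := ⟨_, rfl⟩
  rw [← haa] at key ha hge
  obtain ⟨v, hv⟩ : ∃ v : ℝ, v = 1 / T.card := ⟨_, rfl⟩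
  obtain ⟨u, hu⟩ : ∃ u : ℝ, u = 1 / Z.card := ⟨_, rfl⟩
  have hM2 : Z.card * (12 / (c * T.card)) / (Z.card : ℝ) = 12 / (c * T.card) := by
    rw [mul_div_assoc, mul_div_cancel₀]
    exact hN0.ne'
  rw [hM2, zero_div, add_zero, ← hv, ← hu] at key
  have hu0 : 0 < u := by rw [hu]; positivity
  have hv0 : 0 < v := by rw [hv]; positivity
  have hv1 : 98 * v ≤ c ^ 3 := by
    rw [hv, mul_one_div, div_le_iff₀ hk0, mul_comm (c ^ 3)]
    exact hk.le
  have h12 : 98 * (12 / (c * T.card)) ≤ 12 * c ^ 2 := by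
    rw [← mul_div_assoc, div_le_iff₀ hck]
    nlinarith
  have hq0 : 0 ≤ 12 / (c * T.card) := by positivity
  obtain ⟨q, hq⟩ : ∃ q : ℝ, q = 12 / (c * T.card) := ⟨_, rfl⟩
  rw [← hq] at key h12 hq0
  have hcc : 0 < c ^ 2 := by positivity
  have hc21 : c ^ 2 ≤ 1 := by nlinarith
  -- the conclusion in terms of `u`
  have hfin : c ^ 2 ≤ 8 * u := by
    rcases le_or_gt a 1 with ha1 | ha1
    · have ha2 : c ^ 2 ≤ a ^ 2 := by
        rw [← sq_abs a]
        exact pow_le_pow_left₀ hc.le ha 2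
      have h1 : (1 + a) * (2 * u + 2 * q) ≤ 2 * (2 * u + 2 * q) :=
        mul_le_mul_of_nonneg_right (by linarith) (by positivity)
      nlinarith
    · have h1 : (1 + a) * (2 * u + 2 * q) ≤ 2 * a * (2 * u + 2 * q) :=
        mul_le_mul_of_nonneg_right (by linarith) (by positivity)
      have h2 : 98 * v ≤ a ^ 2 := by nlinarith
      have h3 : 97 / 98 * (a * a) ≤ a * (4 * u + 4 * q) := by nlinarith
      have h4 : 97 / 98 * a ≤ 4 * u + 4 * q := by
        have h5 : a * (97 / 98 * a) ≤ a * (4 * u + 4 * q) := by nlinarith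
        exact le_of_mul_le_mul_left h5 (by linarith)
      nlinarith
  rw [hu, mul_one_div, le_div_iff₀ hN0] at hfin
  linarith

end Pool.Agent.Lib.H46AE
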