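import Pool.Agent.Lib.H46AE.Defs

/-!
# Project H46AE, chunk C6: bounded cliques
-/

open Finset

namespace Pool.Agent.Lib.H46AE

open Pool.Agent.Lib.Helper17.AE

variable {d : ℕ}

/-- Proof. Take a unit clique `I ⊆ S` with the largest number of elements (`Finset.exists_max_image` over `S.powerset`); `I.card ≤ A`. Every `v ∈ S \ I` is in `nbr S i` for
some `i ∈ I` (otherwise `insert v I` is a larger unit clique, `unit_of_not_nbr`). So `S ⊆ I ∪ I.biUnion (nbr S)`, and each `nbr S i` is a unit clique (`clq_nbr`) with at most `A` elements. -/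
theorem card_le_of_clique {S : Finset (E d)} (hS : AlmostEq S) (A : ℕ)
    (h : ∀ K ⊆ S, Clq K → K.card ≤ A) : S.card ≤ A + A * A := by
  classical
  obtain ⟨I, hI, hmax⟩ := Finset.exists_max_image (S.powerset.filter fun K => Clq K)
    (fun K => K.card) ⟨∅, by
      rw [Finset.mem_filter]
      exact ⟨Finset.empty_mem_powerset S, fun y hy => absurd hy (Finset.notMem_empty y)⟩⟩
  rw [Finset.mem_filter, Finset.mem_powerset] at hI
  have hsub : S ⊆ I ∪ I.biUnion (nbr S) := by
    intro v hv
    by_contra hcon
    rw [Finset.mem_union, Finset.mem_biUnion] at hcon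
    push Not at hcon
    obtain ⟨hvI, hvn⟩ := hcon
    have hun : ∀ i ∈ I, dist i v = 1 := fun i hi => by
      have hne : v ≠ i := fun e => hvI (e ▸ hi)
      exact unit_of_not_nbr hv hne (hvn i hi)
    have hcl : Clq (insert v I) := by
      intro y hy z hz hyz
      rcases Finset.mem_insert.1 hy with hyv | hyI
      · rcases Finset.mem_insert.1 hz with hzv | hzI
        · exact absurd (hyv.trans hzv.symm) hyz
        · rw [hyv, dist_comm]
          exact hun z hzI
      · rcases Finset.mem_insert.1 hz with hzv | hzI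
        · rw [hzv]
          exact hun y hyI
        · exact hI.2 y hyI z hzI hyz
    have h1 := hmax (insert v I) (by
      rw [Finset.mem_filter, Finset.mem_powerset]
      exact ⟨Finset.insert_subset hv hI.1, hcl⟩)
    rw [Finset.card_insert_of_notMem hvI] at h1
    omega
  have hIA : I.card ≤ A := h I hI.1 hI.2
  have hN : ∀ i ∈ I, (nbr S i).card ≤ A := fun i hi =>
    h (nbr S i) (fun y hy => (mem_nbr.1 hy).1) (clq_nbr hS (hI.1 hi))
  calc S.card ≤ (I ∪ I.biUnion (nbr S)).card := Finset.card_le_card hsub
    _ ≤ I.card + (I.biUnion (nbr S)).card := Finset.card_union_le _ _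
    _ ≤ I.card + I.card * A := Nat.add_le_add_left (Finset.card_biUnion_le_card_mul _ _ _ hN) _
    _ ≤ A + A * A := Nat.add_le_add hIA (Nat.mul_le_mul_right _ hIA)

end Pool.Agent.Lib.H46AE
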