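import Pool.Agent.Lib.H46AE.C4
import Pool.Agent.Lib.H46AE.C5
import Pool.Agent.Lib.H46AE.C6

/-!
# Project H46AE, chunk B3: the case of a large degree
-/

open Finset

namespace Pool.Agent.Lib.H46AE

open Pool.Agent.Lib.Helper17.AE

variable {d : ℕ}

/-- Proof. `T.card c² ≥ T.card c³ > 98`. `V ⊆ {x} ∪ nbr V x ∪ sph V x` (`unit_of_not_nbr`). Split `sph V x` into `Z₂` (`c/2 ≤ |mn T z|`) and `Z₁` (`|mn T z| < c/2`).
`(nbr V x).card ≤ d + 1`, `Z₂.card + 1 ≤ d + 1` (`two_clique`), and `Z₁.card ≤ A + A²` with `A = ⌊8/c²⌋₊` (`card_le_of_clique`, `AlmostEq.mono`, `one_clique`), which is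
`≤ 8/c² + 64/c⁴ ≤ 72/c⁴`. -/
theorem big_card {V : Finset (E d)} {c W : ℝ} (hV : AlmostEq V) (hc : 0 < c) (hc1 : c ≤ 1)
    (hgap : Gap V c) {x : E d} {T : Finset (E d)} (h : Top V c x T W)
    (hk : 98 < T.card * c ^ 3) : (V.card : ℝ) ≤ 2 * (d + 1) + 72 / c ^ 4 := by
  classical
  have hx : x ∈ V := h.mem
  have hk2 : 24 < T.card * c ^ 2 := by
    have h1 : (T.card : ℝ) * c ^ 3 ≤ T.card * c ^ 2 :=
      mul_le_mul_of_nonneg_left (pow_le_pow_of_le_one hc.le hc1 (by norm_num)) (Nat.cast_nonneg _)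
    linarith
  obtain ⟨Z₁, hZ₁⟩ : ∃ Z : Finset (E d), Z = (sph V x).filter fun z => |mn T z| < c / 2 := ⟨_, rfl⟩
  obtain ⟨Z₂, hZ₂⟩ : ∃ Z : Finset (E d), Z = (sph V x).filter fun z => ¬ |mn T z| < c / 2 :=
    ⟨_, rfl⟩
  have hsub : V ⊆ insert x (nbr V x ∪ (Z₁ ∪ Z₂)) := by
    intro y hy
    rw [hZ₁, hZ₂, Finset.filter_union_filter_not_eq]
    by_cases hyx : y = x
    · rw [hyx]
      exact Finset.mem_insert_self _ _
    · refine Finset.mem_insert_of_mem ?_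
      by_cases hn : y ∈ nbr V x
      · exact Finset.mem_union_left _ hn
      · refine Finset.mem_union_right _ (mem_sph.2 ⟨hy, ?_⟩)
        rw [dist_comm]
        exact unit_of_not_nbr hy hyx hn
  have hcard : V.card ≤ 1 + ((nbr V x).card + (Z₁.card + Z₂.card)) := by
    refine (Finset.card_le_card hsub).trans ((Finset.card_insert_le _ _).trans ?_)
    have h1 : (nbr V x ∪ (Z₁ ∪ Z₂)).card ≤ (nbr V x).card + (Z₁.card + Z₂.card) :=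
      (Finset.card_union_le _ _).trans (Nat.add_le_add_left (Finset.card_union_le _ _) _)
    omega
  have hN : (nbr V x).card ≤ d + 1 := (clq_nbr hV hx).card_le
  have h2 : Z₂.card + 1 ≤ d + 1 := by
    refine two_clique hV hc hc1 hx h.sub hk2 Z₂ fun z hz => ?_
    rw [hZ₂] at hz
    have h3 := Finset.mem_filter.1 hz
    exact ⟨h3.1, not_lt.1 h3.2⟩
  have hc2 : 0 < c ^ 2 := by positivity
  have hc4 : 0 < c ^ 4 := by positivity
  have hZ1s : Z₁ ⊆ sph V x := by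
    rw [hZ₁]
    exact Finset.filter_subset _ _
  have hZ1V : Z₁ ⊆ V := fun z hz => (mem_sph.1 (hZ1s hz)).1
  have h1 : Z₁.card ≤ ⌊8 / c ^ 2⌋₊ + ⌊8 / c ^ 2⌋₊ * ⌊8 / c ^ 2⌋₊ := by
    refine card_le_of_clique (hV.mono hZ1V) _ fun K hK hcl => ?_
    refine Nat.le_floor ?_
    rw [le_div_iff₀ hc2]
    refine one_clique hV hc hc1 hgap h hk (hK.trans hZ1s) (fun z hz => ?_) hcl
    have h3 := hK hz
    rw [hZ₁] at h3
    exact (Finset.mem_filter.1 h3).2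
  have hA : ((⌊8 / c ^ 2⌋₊ : ℕ) : ℝ) ≤ 8 / c ^ 2 := Nat.floor_le (by positivity)
  have hA0 : (0 : ℝ) ≤ ((⌊8 / c ^ 2⌋₊ : ℕ) : ℝ) := Nat.cast_nonneg _
  have h4 : (Z₁.card : ℝ) ≤ 72 / c ^ 4 := by
    have h5 : (Z₁.card : ℝ) ≤ (⌊8 / c ^ 2⌋₊ : ℕ) + (⌊8 / c ^ 2⌋₊ : ℕ) * (⌊8 / c ^ 2⌋₊ : ℕ) := by
      exact_mod_cast h1
    have h6 : ((⌊8 / c ^ 2⌋₊ : ℕ) : ℝ) * (⌊8 / c ^ 2⌋₊ : ℕ) ≤ 8 / c ^ 2 * (8 / c ^ 2) :=
      mul_le_mul hA hA hA0 (hA0.trans hA)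
    have h7 : 8 / c ^ 2 ≤ 8 / c ^ 4 :=
      div_le_div_of_nonneg_left (by norm_num) hc4
        (pow_le_pow_of_le_one hc.le hc1 (by norm_num))
    have h8 : 8 / c ^ 2 * (8 / c ^ 2) = 64 / c ^ 4 := by
      rw [div_mul_div_comm, ← pow_add]
      norm_num
    have h9 : 8 / c ^ 4 + 64 / c ^ 4 = 72 / c ^ 4 := by
      rw [← add_div]
      norm_num
    linarith
  have h10 : V.card ≤ 2 * (d + 1) + Z₁.card := by omega
  have h11 : (V.card : ℝ) ≤ 2 * (d + 1) + Z₁.card := by exact_mod_cast h10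
  linarith

end Pool.Agent.Lib.H46AE
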