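import Pool.Agent.Lib.H46AE.B1

/-!
# Project H46AE, chunk B4: small degrees if the energy is small
-/

open Finset

namespace Pool.Agent.Lib.H46AE

open Pool.Agent.Lib.Helper17.AE

variable {d : ℕ}

variable {V : Finset (E d)} {c W : ℝ} {x : E d} {T : Finset (E d)}

/-- Proof. `k = T.card`, `a = mn T x`, `W = k |a|` (`mul_abs`), `c ≤ |a|` (`le_abs`): `W c = k |a| c ≤ k a² < 4`. For `v ∈ V` let `P` be the set of the `y ∈ nbr V v` with
`ex v y > 0` and `Q` the rest (`ex v y < 0`, `ex_ne_of_nbr`). `c |P| ≤ ∑_P ex v y ≤ W` and `c |Q| ≤ -∑_Q ex v y ≤ W` (`hgap`, `h.max`),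
so `c² (|P| + |Q|) ≤ 2 W c < 8`. -/
theorem deg_small (hc : 0 < c) (hgap : Gap V c) (h : Top V c x T W)
    (he : T.card * mn T x ^ 2 < 4) {v : E d} (hv : v ∈ V) :
    ((nbr V v).card : ℝ) * c ^ 2 ≤ 8 := by
  classical
  have hk : (0 : ℝ) ≤ (T.card : ℝ) := Nat.cast_nonneg _
  have hW : (T.card : ℝ) * |mn T x| = W := h.mul_abs
  have ha : c ≤ |mn T x| := h.le_abs
  have habs : |mn T x| ^ 2 = mn T x ^ 2 := sq_abs _
  have hWc : W * c < 4 := by
    have h1 : (T.card : ℝ) * |mn T x| * c ≤ (T.card : ℝ) * |mn T x| * |mn T x| :=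
      mul_le_mul_of_nonneg_left ha (mul_nonneg hk (abs_nonneg _))
    rw [hW] at h1
    have h2 : W * |mn T x| = (T.card : ℝ) * mn T x ^ 2 := by
      rw [← hW, ← habs]
      ring
    linarith
  have hbig : ∀ y ∈ nbr V v, c ≤ |ex v y| := by
    intro y hy
    have hm := mem_nbr.1 hy
    rcases hgap v hv y hm.1 hm.2.1.symm with h1 | h1
    · exact absurd h1 hm.2.2
    · exact h1
  have hP : (((nbr V v).filter (fun y => 0 < ex v y)).card : ℝ) * c ≤ W := by
    have h1 : ∑ _y ∈ (nbr V v).filter (fun y => 0 < ex v y), c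
        ≤ ∑ y ∈ (nbr V v).filter (fun y => 0 < ex v y), ex v y := by
      refine Finset.sum_le_sum fun y hy => ?_
      have hy2 := Finset.mem_filter.1 hy
      have h3 := hbig y hy2.1
      rwa [abs_of_pos hy2.2] at h3
    rw [Finset.sum_const, nsmul_eq_mul] at h1
    exact (h1.trans (le_abs_self _)).trans (h.max v hv _ (Finset.filter_subset _ _))
  have hQ : (((nbr V v).filter (fun y => ¬ 0 < ex v y)).card : ℝ) * c ≤ W := by
    have h1 : ∑ _y ∈ (nbr V v).filter (fun y => ¬ 0 < ex v y), c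
        ≤ ∑ y ∈ (nbr V v).filter (fun y => ¬ 0 < ex v y), -ex v y := by
      refine Finset.sum_le_sum fun y hy => ?_
      have hy2 := Finset.mem_filter.1 hy
      have h3 := hbig y hy2.1
      rwa [abs_of_nonpos (not_lt.1 hy2.2)] at h3
    rw [Finset.sum_const, nsmul_eq_mul, Finset.sum_neg_distrib] at h1
    exact (h1.trans (neg_le_abs _)).trans (h.max v hv _ (Finset.filter_subset _ _))
  have hcard : ((nbr V v).card : ℝ)
      = ((nbr V v).filter (fun y => 0 < ex v y)).card
        + ((nbr V v).filter (fun y => ¬ 0 < ex v y)).card := by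
    rw [← Nat.cast_add, Finset.card_filter_add_card_filter_not]
  rw [hcard]
  have h5 : (((nbr V v).filter (fun y => 0 < ex v y)).card : ℝ) * c * c ≤ W * c :=
    mul_le_mul_of_nonneg_right hP hc.le
  have h6 : (((nbr V v).filter (fun y => ¬ 0 < ex v y)).card : ℝ) * c * c ≤ W * c :=
    mul_le_mul_of_nonneg_right hQ hc.le
  nlinarith

end Pool.Agent.Lib.H46AE
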