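import Pool.Agent.Lib.H46AE.Defs

/-!
# Project H46AE, chunk B5: the case of small degrees
-/

open Finset

namespace Pool.Agent.Lib.H46AE

open Pool.Agent.Lib.Helper17.AE

variable {d : ℕ}

/-- Proof. Let `F v = ∑_{y ∈ nbr V v} (1 - dist v y ^ 2) ^ 2`. If `F v ≤ 1` for all `v ∈ V`: `card_le_of_small`, `V.card ≤ 2 (d + 2)`. Otherwise `F x > 1` for some
`x ∈ V`. Each term of `F x` is `ex x y ^ 2 ≥ c ^ 2` (`hgap`). There is `Y ⊆ nbr V x` with `∑_{y ∈ Y} (1 - dist x y ^ 2) ^ 2 > 1` and `Y.card ≤ 1 / c ^ 2 + 1`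
(if `(nbr V x).card ≤ ⌊1/c²⌋₊ + 1` take `Y = nbr V x`, otherwise any subset with `⌊1/c²⌋₊ + 1` elements: compare the last lines of
`Results/MP_5bdf33_co/DistanceGap.lean`). `card_le_of_nbr` with `D = ⌊8 / c ^ 2⌋₊`: `V.card + 2 Y.card + 2 ≤ 2 (d + 2) + (Y.card + 1) D`, and
`(Y.card + 1) D ≤ (1/c² + 2)(8/c²) ≤ 24/c⁴` (`c ≤ 1`). -/
theorem small_case {V : Finset (E d)} {c : ℝ} (hV : AlmostEq V) (hc : 0 < c) (hc1 : c ≤ 1)
    (hgap : Gap V c) (hdeg : ∀ v ∈ V, ((nbr V v).card : ℝ) * c ^ 2 ≤ 8) :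
    (V.card : ℝ) ≤ 2 * d + 4 + 24 / c ^ 4 := by
  classical
  have hc2 : 0 < c ^ 2 := by positivity
  have hk : 1 < ((⌊1 / c ^ 2⌋₊ + 1 : ℕ) : ℝ) * c ^ 2 := by
    have h1 := Nat.lt_floor_add_one (1 / c ^ 2)
    rw [div_lt_iff₀ hc2] at h1
    push_cast
    exact h1
  by_cases h : ∀ x ∈ V, ∑ y ∈ nbr V x, (1 - dist x y ^ 2) ^ 2 ≤ 1
  · have h1 := card_le_of_small h
    have h2 : (V.card : ℝ) ≤ 2 * (d + 2) := by exact_mod_cast h1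
    have h3 : 0 ≤ 24 / c ^ 4 := by positivity
    linarith
  · push Not at h
    obtain ⟨x, hx, hS⟩ := h
    have hterm : ∀ y ∈ nbr V x, c ^ 2 ≤ (1 - dist x y ^ 2) ^ 2 := by
      intro y hy
      have hy2 := mem_nbr.mp hy
      rcases hgap x hx y hy2.1 (Ne.symm hy2.2.1) with h1 | h1
      · exact absurd h1 hy2.2.2
      · have e : (1 - dist x y ^ 2) ^ 2 = |ex x y| ^ 2 := by
          rw [sq_abs]
          unfold ex
          ring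
        rw [e]
        exact pow_le_pow_left₀ hc.le h1 2
    obtain ⟨Y, hY, hYc, hYs⟩ : ∃ Y ⊆ nbr V x, Y.card ≤ ⌊1 / c ^ 2⌋₊ + 1 ∧
        1 < ∑ y ∈ Y, (1 - dist x y ^ 2) ^ 2 := by
      by_cases hcard : (nbr V x).card ≤ ⌊1 / c ^ 2⌋₊ + 1
      · exact ⟨nbr V x, Finset.Subset.refl _, hcard, hS⟩
      · push Not at hcard
        obtain ⟨Y1, hY1, hY1c⟩ := Finset.exists_subset_card_eq hcard.le
        refine ⟨Y1, hY1, hY1c.le, ?_⟩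
        refine hk.trans_le ?_
        rw [← hY1c, ← nsmul_eq_mul]
        exact Finset.card_nsmul_le_sum _ _ _ fun y hy => hterm y (hY1 hy)
    have hD : ∀ v ∈ V, (nbr V v).card ≤ ⌊8 / c ^ 2⌋₊ := fun v hv =>
      Nat.le_floor (by rw [le_div_iff₀ hc2]; exact hdeg v hv)
    have hm := card_le_of_nbr hV hx Y hY hYs hD
    have hm' : (V.card : ℝ) + 2 * Y.card + 2 ≤
        2 * (d + 2) + (Y.card + 1) * (⌊8 / c ^ 2⌋₊ : ℝ) := by exact_mod_cast hm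
    have hYc' : (Y.card : ℝ) ≤ (⌊1 / c ^ 2⌋₊ : ℝ) + 1 := by exact_mod_cast hYc
    have e8 : 8 / c ^ 2 = 8 * (1 / c ^ 2) := by ring
    have f8 : (⌊8 / c ^ 2⌋₊ : ℝ) ≤ 8 * (1 / c ^ 2) := by
      rw [← e8]
      exact Nat.floor_le (by positivity)
    have f1 : (⌊1 / c ^ 2⌋₊ : ℝ) ≤ 1 / c ^ 2 := Nat.floor_le (by positivity)
    have e24 : 24 / c ^ 4 = 24 * (1 / c ^ 2) ^ 2 := by
      field_simp
    have ht : 1 ≤ 1 / c ^ 2 := by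
      rw [le_div_iff₀ hc2, one_mul]
      exact pow_le_one₀ hc.le hc1
    have hF0 : (0 : ℝ) ≤ (⌊8 / c ^ 2⌋₊ : ℝ) := Nat.cast_nonneg _
    have hY0 : (0 : ℝ) ≤ (Y.card : ℝ) := Nat.cast_nonneg _
    rw [e24]
    have h8 : (Y.card : ℝ) + 1 ≤ 1 / c ^ 2 + 2 := by linarith
    have h9 : ((Y.card : ℝ) + 1) * (⌊8 / c ^ 2⌋₊ : ℝ) ≤ (1 / c ^ 2 + 2) * (8 * (1 / c ^ 2)) :=
      mul_le_mul h8 f8 hF0 (by linarith)
    nlinarith

end Pool.Agent.Lib.H46AE
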