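import Pool.Agent.Lib.H46AE.B2
import Pool.Agent.Lib.H46AE.B3
import Pool.Agent.Lib.H46AE.B4
import Pool.Agent.Lib.H46AE.B5

/-!
# Project H46AE, chunk B6: the gap theorem
-/

open Finset

namespace Pool.Agent.Lib.H46AE

open Pool.Agent.Lib.Helper17.AE

variable {d : ℕ}

/-- Proof. If no `x ∈ V` has a nonempty `nbr V x` then `V` is a unit clique and `V.card ≤ d + 1`. Otherwise `exists_top`. If `T.card * mn T x ^ 2 < 4`: `deg_small` and
`small_case`. Otherwise, if `98 < T.card c³`: `big_card`. If `T.card c³ ≤ 98`: `far_card` gives `(sph V x).card c ≤ 16 T.card`, so `(sph V x).card ≤ 16 · 98/c⁴ = 1568/c⁴`, and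
`V.card ≤ 1 + (d + 1) + (sph V x).card` (`V ⊆ {x} ∪ nbr V x ∪ sph V x`). -/
theorem gap_bound {V : Finset (E d)} {c : ℝ} (hV : AlmostEq V) (hc : 0 < c) (hc1 : c ≤ 1)
    (hgap : Gap V c) : (V.card : ℝ) ≤ 2 * d + 4 + 1568 / c ^ 4 := by
  classical
  have hc4 : 0 < c ^ 4 := pow_pos hc 4
  have hpos : 0 ≤ 1568 / c ^ 4 := div_nonneg (by norm_num) hc4.le
  have hd0 : (0 : ℝ) ≤ d := Nat.cast_nonneg d
  by_cases hne : ∃ x ∈ V, (nbr V x).Nonempty
  · obtain ⟨x, T, W, h⟩ := exists_top hgap hne
    by_cases he : T.card * mn T x ^ 2 < 4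
    · have h1 := small_case hV hc hc1 hgap fun v hv => deg_small hc hgap h he hv
      have h2 : 24 / c ^ 4 ≤ 1568 / c ^ 4 := div_le_div_of_nonneg_right (by norm_num) hc4.le
      linarith
    · have he' : 4 ≤ T.card * mn T x ^ 2 := not_lt.mp he
      by_cases hk : 98 < T.card * c ^ 3
      · have h1 := big_card hV hc hc1 hgap h hk
        have h2 : 72 / c ^ 4 ≤ 1568 / c ^ 4 := div_le_div_of_nonneg_right (by norm_num) hc4.le
        linarith
      · have hk' : T.card * c ^ 3 ≤ 98 := not_lt.mp hk
        have h1 := far_card hV hc hc1 h he'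
        have h2 : ((sph V x).card : ℝ) ≤ 1568 / c ^ 4 := by
          rw [le_div_iff₀ hc4]
          have h3 : 0 < c ^ 3 := pow_pos hc 3
          calc ((sph V x).card : ℝ) * c ^ 4 = ((sph V x).card : ℝ) * c * c ^ 3 := by ring
            _ ≤ 16 * T.card * c ^ 3 := mul_le_mul_of_nonneg_right h1 h3.le
            _ = 16 * (T.card * c ^ 3) := by ring
            _ ≤ 1568 := by linarith
        have hsub : V ⊆ insert x (nbr V x ∪ sph V x) := by
          intro z hz
          rw [mem_insert, mem_union]
          by_cases hzx : z = x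
          · exact Or.inl hzx
          · refine Or.inr ?_
            by_cases hzn : z ∈ nbr V x
            · exact Or.inl hzn
            · refine Or.inr (mem_sph.2 ⟨hz, ?_⟩)
              rw [dist_comm]
              exact unit_of_not_nbr hz hzx hzn
        have h3 : V.card ≤ (nbr V x).card + (sph V x).card + 1 :=
          (card_le_card hsub).trans ((card_insert_le _ _).trans
            (Nat.add_le_add_right (card_union_le _ _) 1))
        have h4 : (nbr V x).card ≤ d + 1 := nbr_card hV h.mem
        have h3' : (V.card : ℝ) ≤ (nbr V x).card + (sph V x).card + 1 := by exact_mod_cast h3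
        have h4' : ((nbr V x).card : ℝ) ≤ d + 1 := by exact_mod_cast h4
        linarith
  · have hclq : V.card ≤ d + 1 := by
      refine simplex_card V fun y hy z hz hyz => ?_
      by_contra hd
      exact hne ⟨y, hy, z, mem_nbr.2 ⟨hz, hyz.symm, hd⟩⟩
    have h1 : (V.card : ℝ) ≤ d + 1 := by exact_mod_cast hclq
    linarith

end Pool.Agent.Lib.H46AE
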