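import Pool.Agent.Lib.H46AE.A2

/-!
# Project H46AE, chunk C1: one point and a unit clique
-/

open Finset

namespace Pool.Agent.Lib.H46AE

open Pool.Agent.Lib.Helper17.AE

variable {d : ℕ}

variable {K : Finset (E d)} {c : ℝ}

private theorem C1_inv_le {K : Finset (E d)} (hne : K.Nonempty) : (1 : ℝ) / K.card ≤ 1 := by
  have h1 : (1 : ℝ) ≤ K.card := by exact_mod_cast hne.card_pos
  rw [div_le_one (by linarith)]
  exact h1

private theorem C1_sum_le {K S : Finset (E d)} (hK : Clq K) (hne : K.Nonempty) (z : E d)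
    (hS : S ⊆ K) : ∑ y ∈ S, (ex z y - mn K z) ^ 2 ≤ 2 * |mn K z| + 2 := by
  have h1 : ∑ y ∈ S, (ex z y - mn K z) ^ 2 ≤ ∑ y ∈ K, (ex z y - mn K z) ^ 2 :=
    Finset.sum_le_sum_of_subset_of_nonneg hS (fun _ _ _ => sq_nonneg _)
  have h2 := var_le hK hne z
  have h3 := C1_inv_le hne
  have h4 := le_abs_self (mn K z)
  linarith

/-- Proof. `a = mn K z`. `(zer K z).card * a² ≤ ∑_{y ∈ K} (ex z y - a)² ≤ 2a + 1 + 1/k ≤ 2|a| + 2` (`var_le`), so with `|a| ≥ c/2`, `c ≤ 1`: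
`(zer K z).card ≤ 2/|a| + 2/a² ≤ 4/c + 8/c² ≤ 12/c²`. -/
theorem dicho_two (hK : Clq K) (hne : K.Nonempty) (hc : 0 < c) (hc1 : c ≤ 1) (z : E d)
    (hz : c / 2 ≤ |mn K z|) : ((zer K z).card : ℝ) * c ^ 2 ≤ 12 := by
  have hsum : ∑ y ∈ zer K z, (ex z y - mn K z) ^ 2 = ((zer K z).card : ℝ) * (mn K z) ^ 2 := by
    rw [Finset.sum_congr rfl (g := fun _ => (mn K z) ^ 2) (fun y hy => by
      rw [(mem_zer.1 hy).2]
      ring)]
    rw [Finset.sum_const, nsmul_eq_mul]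
  have h1 := C1_sum_le hK hne z (S := zer K z) (fun y hy => (mem_zer.1 hy).1)
  rw [hsum, ← sq_abs (mn K z)] at h1
  set t := |mn K z| with ht
  have hN : (0 : ℝ) ≤ (zer K z).card := Nat.cast_nonneg _
  have ht0 : 0 < t := by linarith
  have hc2 : c ^ 2 ≤ 2 * t := by nlinarith
  have h2 : c ^ 2 * (2 * t) ≤ 4 * t ^ 2 := by nlinarith
  have h3 : c ^ 2 ≤ 4 * t ^ 2 := by nlinarith
  have h4 : ((zer K z).card : ℝ) * c ^ 2 * t ^ 2 ≤ 12 * t ^ 2 := by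
    have h5 := mul_le_mul_of_nonneg_left h1 (sq_nonneg c)
    nlinarith
  exact le_of_mul_le_mul_right h4 (by positivity)

/-- Proof. `a = mn K z`, `|a| < c/2`. For `y ∈ nzr K z`: `|ex z y - a| ≥ c - c/2`, so `(nzr K z).card * c²/4 ≤ ∑_{y ∈ K} (ex z y - a)² ≤ 2a + 1 + 1/k ≤ 3`
(`var_le`, `c ≤ 1`). -/
theorem dicho_one (hK : Clq K) (hne : K.Nonempty) (hc : 0 < c) (hc1 : c ≤ 1) (z : E d)
    (hz : |mn K z| < c / 2) (hgap : ∀ y ∈ K, ex z y = 0 ∨ c ≤ |ex z y|) :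
    ((nzr K z).card : ℝ) * c ^ 2 ≤ 12 := by
  have h1 := C1_sum_le hK hne z (S := nzr K z) (fun y hy => (mem_nzr.1 hy).1)
  have h2 : ((nzr K z).card : ℝ) * (c ^ 2 / 4) ≤ ∑ y ∈ nzr K z, (ex z y - mn K z) ^ 2 := by
    rw [← nsmul_eq_mul, ← Finset.sum_const]
    apply Finset.sum_le_sum
    intro y hy
    obtain ⟨hyK, hy0⟩ := mem_nzr.1 hy
    have h3 : c ≤ |ex z y| := (hgap y hyK).resolve_left hy0
    have h4 : |ex z y| - |mn K z| ≤ |ex z y - mn K z| := abs_sub_abs_le_abs_sub _ _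
    have h5 : c / 2 ≤ |ex z y - mn K z| := by linarith
    rw [← sq_abs (ex z y - mn K z)]
    nlinarith
  nlinarith

/-- Proof. `k = K.card`, `a = mn K z`, `S = nzr K z`, `μ = S.card ≤ 12/c²` (`dicho_one`). `k|a| = |∑_S ex z y| ≤ ∑_S |ex z y - a| + μ|a|`;
`(∑_S |ex z y - a|)² ≤ μ ∑_S (ex z y - a)² ≤ (12/c²) · 3` (Cauchy-Schwarz, `var_le`), so `∑_S |ex z y - a| ≤ 6/c`; `μ ≤ 12/c² ≤ k/2` (`hk`).
Hence `k|a|/2 ≤ 6/c`. -/
theorem mean_small (hK : Clq K) (hne : K.Nonempty) (hc : 0 < c) (hc1 : c ≤ 1) (z : E d)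
    (hz : |mn K z| < c / 2) (hgap : ∀ y ∈ K, ex z y = 0 ∨ c ≤ |ex z y|)
    (hk : 24 ≤ K.card * c ^ 2) : |mn K z| * (c * K.card) ≤ 12 := by
  have hμ := dicho_one hK hne hc hc1 z hz hgap
  have h1 := C1_sum_le hK hne z (S := nzr K z) (fun y hy => (mem_nzr.1 hy).1)
  have h1' : ∑ y ∈ nzr K z, (ex z y - mn K z) ^ 2 ≤ 3 := by linarith
  have hk0 : (0 : ℝ) < K.card := by exact_mod_cast hne.card_pos
  set A : ℝ := ∑ y ∈ nzr K z, |ex z y - mn K z| with hA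
  have hA0 : 0 ≤ A := Finset.sum_nonneg (fun _ _ => abs_nonneg _)
  have hCS : A ^ 2 ≤ ((nzr K z).card : ℝ) * ∑ y ∈ nzr K z, (ex z y - mn K z) ^ 2 := by
    have h := sq_sum_le_card_mul_sum_sq (s := nzr K z) (f := fun y => |ex z y - mn K z|)
    simp only [sq_abs] at h
    exact h
  have hN : (0 : ℝ) ≤ (nzr K z).card := Nat.cast_nonneg _
  have hA2 : A ^ 2 ≤ ((nzr K z).card : ℝ) * 3 :=
    hCS.trans (mul_le_mul_of_nonneg_left h1' hN)
  have hcA : c * A ≤ 6 := by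
    have h2 : (c * A) ^ 2 ≤ 6 ^ 2 := by
      have h3 := mul_le_mul_of_nonneg_left hA2 (sq_nonneg c)
      nlinarith
    exact abs_le_of_sq_le_sq' h2 (by norm_num) |>.2
  -- the mean times the number of points
  have hmn : (K.card : ℝ) * mn K z = ∑ y ∈ nzr K z, ex z y := by
    have h2 : (K.card : ℝ) * mn K z = ∑ y ∈ K, ex z y := by
      unfold mn
      rw [← mul_assoc, mul_inv_cancel₀ hk0.ne', one_mul]
    rw [h2]
    symm
    apply Finset.sum_subset (fun y hy => (mem_nzr.1 hy).1)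
    intro y hyK hy
    by_contra h0
    exact hy (mem_nzr.2 ⟨hyK, h0⟩)
  have hdec : ∑ y ∈ nzr K z, ex z y
      = ∑ y ∈ nzr K z, (ex z y - mn K z) + ((nzr K z).card : ℝ) * mn K z := by
    rw [Finset.sum_sub_distrib, Finset.sum_const, nsmul_eq_mul]
    ring
  have habs : (K.card : ℝ) * |mn K z| ≤ A + ((nzr K z).card : ℝ) * |mn K z| := by
    have h2 : (K.card : ℝ) * |mn K z| = |(K.card : ℝ) * mn K z| := by
      rw [abs_mul, abs_of_pos hk0]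
    rw [h2, hmn, hdec]
    refine (abs_add_le _ _).trans ?_
    refine add_le_add (Finset.abs_sum_le_sum_abs _ _) ?_
    rw [abs_mul, abs_of_nonneg hN]
  have hhalf : ((nzr K z).card : ℝ) ≤ K.card / 2 := by
    have h2 : ((nzr K z).card : ℝ) * c ^ 2 ≤ K.card / 2 * c ^ 2 := by linarith
    exact le_of_mul_le_mul_right h2 (by positivity)
  have h5 : ((nzr K z).card : ℝ) * |mn K z| ≤ K.card / 2 * |mn K z| :=
    mul_le_mul_of_nonneg_right hhalf (abs_nonneg _)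
  have h6 : (K.card : ℝ) / 2 * |mn K z| ≤ A := by linarith
  have h7 := mul_le_mul_of_nonneg_left h6 hc.le
  nlinarith

end Pool.Agent.Lib.H46AE
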