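import Pool.Agent.Lib.H46AE.C1

/-!
# Project H46AE, chunk C4: the points of the second kind
-/

open Finset

namespace Pool.Agent.Lib.H46AE

open Pool.Agent.Lib.Helper17.AE

variable {d : ℕ}

/-- Proof. `x ∉ Z` (`dist x x = 0`), so it is enough that `insert x Z` is a unit clique (`Clq.card_le`, `card_insert_of_notMem`). Let `z ≠ w` be in it. For `z ∈ Z`:
`(zer T z).card ≤ 12/c²` (`dicho_two`; `T ⊆ nbr V x` is a unit clique by `clq_nbr`); for `z = x`: `zer T x = ∅` (`ex_ne_of_nbr`). As `T.card > 24/c²` there is `y ∈ T` which is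
neither in `zer T z` nor in `zer T w`: `ex z y ≠ 0`, `ex w y ≠ 0`. `y ≠ z`, `y ≠ w` (`y ∈ nbr V x`: `y ≠ x` and `dist x y ≠ 1`, but `dist z x = 1` for `z ∈ Z`). So
`z, w ∈ nbr V y` and `nbr_unit` gives `dist z w = 1`. -/
theorem two_clique {V : Finset (E d)} {c : ℝ} (hV : AlmostEq V) (hc : 0 < c) (hc1 : c ≤ 1)
    {x : E d} (hx : x ∈ V) {T : Finset (E d)} (hT : T ⊆ nbr V x) (hk : 24 < T.card * c ^ 2)
    (Z : Finset (E d)) (hZ : ∀ z ∈ Z, z ∈ sph V x ∧ c / 2 ≤ |mn T z|) :
    Z.card + 1 ≤ d + 1 := by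
  classical
  have hTne : T.Nonempty := by
    rw [Finset.nonempty_iff_ne_empty]
    rintro rfl
    rw [Finset.card_empty, Nat.cast_zero, zero_mul] at hk
    linarith
  have hTq : Clq T := (clq_nbr hV hx).mono hT
  have hxZ : x ∉ Z := fun h => by
    have := (mem_sph.1 (hZ x h).1).2
    rw [dist_self] at this
    norm_num at this
  -- facts on the members of `insert x Z`
  have hmem : ∀ z ∈ insert x Z, z ∈ V ∧ (∀ y ∈ T, y ≠ z) ∧ ((zer T z).card : ℝ) * c ^ 2 ≤ 12 := by
    intro z hz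
    rcases Finset.mem_insert.1 hz with rfl | hz
    · refine ⟨hx, fun y hy => (mem_nbr.1 (hT hy)).2.1, ?_⟩
      have h0 : zer T z = ∅ := by
        rw [Finset.eq_empty_iff_forall_notMem]
        intro y hy
        exact ex_ne_of_nbr (hT (mem_zer.1 hy).1) (mem_zer.1 hy).2
      rw [h0, Finset.card_empty, Nat.cast_zero, zero_mul]
      norm_num
    · have h1 := mem_sph.1 (hZ z hz).1
      refine ⟨h1.1, fun y hy hyz => ?_, dicho_two hTq hTne hc hc1 z (hZ z hz).2⟩
      have h2 := (mem_nbr.1 (hT hy)).2.2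
      rw [hyz, dist_comm] at h2
      exact h2 h1.2
  have hq : Clq (insert x Z) := by
    intro z hz w hw hzw
    obtain ⟨hzV, hzT, hzc⟩ := hmem z hz
    obtain ⟨hwV, hwT, hwc⟩ := hmem w hw
    have hlt : (zer T z ∪ zer T w).card < T.card := by
      have h1 : ((zer T z ∪ zer T w).card : ℝ) ≤ (zer T z).card + (zer T w).card := by
        exact_mod_cast Finset.card_union_le _ _
      have h2 : ((zer T z ∪ zer T w).card : ℝ) * c ^ 2 ≤ 24 := by
        have := mul_le_mul_of_nonneg_right h1 (sq_nonneg c)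
        rw [add_mul] at this
        linarith
      have h3 : ((zer T z ∪ zer T w).card : ℝ) * c ^ 2 < T.card * c ^ 2 := h2.trans_lt hk
      have h4 := lt_of_mul_lt_mul_right h3 (sq_nonneg c)
      exact_mod_cast h4
    obtain ⟨y, hyT, hyn⟩ : ∃ y ∈ T, y ∉ zer T z ∪ zer T w := by
      by_contra hcon
      push Not at hcon
      exact absurd (Finset.card_le_card hcon) (not_le.2 hlt)
    rw [Finset.mem_union, not_or] at hyn
    have hyV : y ∈ V := (mem_nbr.1 (hT hyT)).1
    have ha : z ∈ nbr V y := mem_nbr.2 ⟨hzV, (hzT y hyT).symm, fun h =>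
      hyn.1 (mem_zer.2 ⟨hyT, by rw [ex_comm]; exact ex_of_unit h⟩)⟩
    have hb : w ∈ nbr V y := mem_nbr.2 ⟨hwV, (hwT y hyT).symm, fun h =>
      hyn.2 (mem_zer.2 ⟨hyT, by rw [ex_comm]; exact ex_of_unit h⟩)⟩
    exact nbr_unit hV hyV ha hb hzw
  have := hq.card_le
  rw [Finset.card_insert_of_notMem hxZ] at this
  exact this

end Pool.Agent.Lib.H46AE
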