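import Pool.Agent.Lib.Helper17.AE.Main

/-!
# Project H46AE (MP_5bdf33_co): almost-equidistant sets with a distance gap, definitions
-/

open Finset

namespace Pool.Agent.Lib.H46AE

open Pool.Agent.Lib.Helper17.AE

variable {d : ℕ}

/-- Squared distance minus one. -/
noncomputable def ex (x y : E d) : ℝ := dist x y ^ 2 - 1

theorem ex_comm (x y : E d) : ex x y = ex y x := by
  unfold ex
  rw [dist_comm]

theorem ex_of_unit {x y : E d} (h : dist x y = 1) : ex x y = 0 := by
  unfold ex
  rw [h]
  norm_num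

theorem unit_of_ex {x y : E d} (h : ex x y = 0) : dist x y = 1 := by
  have h0 : (0 : ℝ) ≤ dist x y := dist_nonneg
  unfold ex at h
  nlinarith

theorem ex_ne_of_nbr {V : Finset (E d)} {x y : E d} (h : y ∈ nbr V x) : ex x y ≠ 0 := fun h0 =>
  (mem_nbr.1 h).2.2 (unit_of_ex h0)

/-- Any two different points are at distance one. -/
def Clq (K : Finset (E d)) : Prop := ∀ y ∈ K, ∀ z ∈ K, y ≠ z → dist y z = 1

/-- The centroid. -/
noncomputable def cen (K : Finset (E d)) : E d := (K.card : ℝ)⁻¹ • ∑ y ∈ K, y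

/-- The mean of `ex x y` over `y ∈ K`. -/
noncomputable def mn (K : Finset (E d)) (x : E d) : ℝ := (K.card : ℝ)⁻¹ * ∑ y ∈ K, ex x y

theorem Clq.mono {K K' : Finset (E d)} (h : Clq K) (hs : K' ⊆ K) : Clq K' :=
  fun y hy z hz => h y (hs hy) z (hs hz)

theorem Clq.card_le {K : Finset (E d)} (h : Clq K) : K.card ≤ d + 1 := simplex_card K h

theorem clq_nbr {V : Finset (E d)} (hV : AlmostEq V) {x : E d} (hx : x ∈ V) : Clq (nbr V x) :=
  fun _ hy _ hz hyz => nbr_unit hV hx hy hz hyz

theorem mem_nbr_comm {V : Finset (E d)} {x y : E d} (hx : x ∈ V) (h : y ∈ nbr V x) :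
    x ∈ nbr V y := by
  rw [mem_nbr] at h ⊢
  exact ⟨hx, h.2.1.symm, by rw [dist_comm]; exact h.2.2⟩

/-- Two points of `V` which are not `nbr`s of each other and different are at distance one. -/
theorem unit_of_not_nbr {V : Finset (E d)} {x y : E d} (hy : y ∈ V) (hne : y ≠ x)
    (h : y ∉ nbr V x) : dist x y = 1 := by
  by_contra hd
  exact h (mem_nbr.2 ⟨hy, hne, hd⟩)

/-- `(x, T)` maximizes the absolute values of all row sums over sets of `nbr`s, `W` is the maximum, and all
entries of `T` have the same sign and absolute value at least `c`. -/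
structure Top (V : Finset (E d)) (c : ℝ) (x : E d) (T : Finset (E d)) (W : ℝ) : Prop where
  mem : x ∈ V
  sub : T ⊆ nbr V x
  ne : T.Nonempty
  sgn : (∀ y ∈ T, c ≤ ex x y) ∨ (∀ y ∈ T, ex x y ≤ -c)
  sum : |∑ y ∈ T, ex x y| = W
  max : ∀ v ∈ V, ∀ S ⊆ nbr V v, |∑ y ∈ S, ex v y| ≤ W

/-- The points of `V` at distance one from `x`. -/
noncomputable def sph (V : Finset (E d)) (x : E d) : Finset (E d) := by
  classical
  exact V.filter (fun z => dist z x = 1)

theorem mem_sph {V : Finset (E d)} {x z : E d} : z ∈ sph V x ↔ z ∈ V ∧ dist z x = 1 := by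
  classical
  unfold sph
  rw [Finset.mem_filter]

/-- The `y ∈ K` with `ex z y = 0`. -/
noncomputable def zer (K : Finset (E d)) (z : E d) : Finset (E d) := by
  classical
  exact K.filter (fun y => ex z y = 0)

/-- The `y ∈ K` with `ex z y ≠ 0`. -/
noncomputable def nzr (K : Finset (E d)) (z : E d) : Finset (E d) := by
  classical
  exact K.filter (fun y => ex z y ≠ 0)

theorem mem_zer {K : Finset (E d)} {y z : E d} : y ∈ zer K z ↔ y ∈ K ∧ ex z y = 0 := by
  classical
  unfold zer
  rw [Finset.mem_filter]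

theorem mem_nzr {K : Finset (E d)} {y z : E d} : y ∈ nzr K z ↔ y ∈ K ∧ ex z y ≠ 0 := by
  classical
  unfold nzr
  rw [Finset.mem_filter]

theorem card_zer_add_nzr (K : Finset (E d)) (z : E d) :
    (zer K z).card + (nzr K z).card = K.card := by
  classical
  unfold zer nzr
  exact Finset.card_filter_add_card_filter_not _

/-- Every two different points of `V` are at distance one or have `|ex x y| ≥ c`. -/
def Gap (V : Finset (E d)) (c : ℝ) : Prop :=
  ∀ x ∈ V, ∀ y ∈ V, x ≠ y → dist x y = 1 ∨ c ≤ |ex x y|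

end Pool.Agent.Lib.H46AE
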