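import Pool.Agent.Lib.H86AE.Num
import Pool.Agent.Lib.H46AE.Defs

/-!
# Project H46AE, chunk E1: numerical part of the second bound
-/

namespace Pool.Agent.Lib.H46AE

/-- Proof. Suppose `N > 8 (D + t (1 + κ))` with `t ^ 3 = D ^ 2` (so `t ≥ 1`), hence `1 + κ ≤ N/8`, `D ≤ N/8`. Put `X = N + F - 1 - 2s - 2w + s²`, `q = 1 + κ`.
(2): `(7N/8)² ≤ (N - 1 - s)² ≤ D X` (`|s| ≤ κ`, `1 + κ ≤ N/8`), so `X ≥ (49/64) N²/D ≥ (49/8) N`. `3F = 3X - 3N + 3 + 6s + 6w - 3s² ≤ 3X - 3N + 6q²`,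
`-(1+s)(1+2s+3w-2s²) ≤ (1+κ)(1+2κ+5κ²) ≤ 5q³`. (1): `X² ≤ (N + κ)(N + 3F + 5q³) ≤ (9/8)N (3X + 11 q³)` (drop `-2N`; `6q² ≤ 6q³`).
`(27/8) N X ≤ (27/8)(8/49) X² ≤ (28/49) X²`, so `(3/7) X² ≤ (99/8) N q³`, i.e. `X² ≤ 29 N q³`; `(49/64)² N⁴ ≤ D² X² ≤ 29 D² N q³`, `N³ ≤ 50 D² q³ = 50 (t q)³ < (4 t q)³`:
contradiction. -/
theorem num_bound (N F s w D dd κ t : ℝ)
    (h1 : (N + F - 1 - 2 * s - 2 * w + s ^ 2) ^ 2 ≤
      (N - 1 - s) * (N + 3 * F - (1 + s) * (1 + 2 * s + 3 * w - 2 * s ^ 2)))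
    (h2 : (N - 1 - s) ^ 2 ≤ dd * (N + F - 1 - 2 * s - 2 * w + s ^ 2))
    (hs : |s| ≤ κ) (hw0 : 0 ≤ w) (hw : w ≤ κ ^ 2) (hF : 0 ≤ F) (hdd : 0 ≤ dd) (hdD : dd ≤ D)
    (hD : 1 ≤ D) (ht : 0 ≤ t) (ht3 : t ^ 3 = D ^ 2) (hκ : 0 ≤ κ) :
    N ≤ 8 * (D + t * (1 + κ)) := by
  by_contra hcon
  push Not at hcon
  obtain ⟨hs1, hs2⟩ := abs_le.mp hs
  have ht1 : 1 ≤ t := by
    by_contra h
    push Not at h
    have h3 : t ^ 3 < 1 := by
      have := pow_lt_one₀ ht h (n := 3) (by norm_num)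
      exact this
    have h4 : (1 : ℝ) ≤ D ^ 2 := one_le_pow₀ hD
    linarith
  obtain ⟨q, hq⟩ : ∃ q, q = 1 + κ := ⟨_, rfl⟩
  rw [← hq] at hcon
  have hq1 : 1 ≤ q := by linarith
  have hq0 : 0 ≤ q := by linarith
  have htq0 : q ≤ t * q := by nlinarith
  have hNq : 8 * q ≤ N := by nlinarith
  have hND : 8 * D ≤ N := by nlinarith
  have hNtq : 8 * (t * q) ≤ N := by nlinarith
  have hN0 : 0 < N := by linarith
  obtain ⟨X, hX⟩ : ∃ X, X = N + F - 1 - 2 * s - 2 * w + s ^ 2 := ⟨_, rfl⟩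
  rw [← hX] at h1 h2
  have ha : 7 / 8 * N ≤ N - 1 - s := by linarith
  have ha0 : 0 ≤ N - 1 - s := by linarith
  have ha2 : 49 / 64 * N ^ 2 ≤ (N - 1 - s) ^ 2 := by
    have h := mul_self_le_mul_self (by positivity : (0 : ℝ) ≤ 7 / 8 * N) ha
    nlinarith
  have hddX : 0 < dd * X := by
    have : 0 < N ^ 2 := by positivity
    linarith
  have hX0 : 0 < X := by
    by_contra h
    push Not at h
    have := mul_nonpos_of_nonneg_of_nonpos hdd h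
    linarith
  have hDX : dd * X ≤ D * X := mul_le_mul_of_nonneg_right hdD hX0.le
  have h2' : 49 / 64 * N ^ 2 ≤ D * X := by linarith
  have hXN : 49 / 8 * N ≤ X := by
    have h3 : D * X ≤ N / 8 * X := mul_le_mul_of_nonneg_right (by linarith) hX0.le
    have h4 : N * (49 / 8 * N) ≤ N * X := by
      have h41 : N * (49 / 8 * N) = 49 / 8 * N ^ 2 := by ring
      have h42 : N / 8 * X = 1 / 8 * (N * X) := by ring
      linarith
    exact le_of_mul_le_mul_left h4 hN0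
  have h3F : 3 * F ≤ 3 * X - 3 * N + 6 * q ^ 2 := by
    have : 3 * F = 3 * X - 3 * N + 3 + 6 * s + 6 * w - 3 * s ^ 2 := by rw [hX]; ring
    rw [this, hq]
    nlinarith [sq_nonneg s]
  have hs2' : s ^ 2 ≤ κ ^ 2 := sq_le_sq' (by linarith) hs2
  have hprod : -((1 + s) * (1 + 2 * s + 3 * w - 2 * s ^ 2)) ≤ 5 * q ^ 3 := by
    have hb1 : |1 + s| ≤ q := by
      rw [abs_le, hq]
      constructor <;> linarith
    have hb2 : |1 + 2 * s + 3 * w - 2 * s ^ 2| ≤ 5 * q ^ 2 := by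
      rw [abs_le, hq]
      constructor <;> nlinarith [sq_nonneg s, sq_nonneg κ]
    have hb3 := mul_le_mul hb1 hb2 (abs_nonneg _) hq0
    rw [← abs_mul] at hb3
    have hb4 := neg_abs_le ((1 + s) * (1 + 2 * s + 3 * w - 2 * s ^ 2))
    have hb5 : q * (5 * q ^ 2) = 5 * q ^ 3 := by ring
    linarith
  have hq23 : q ^ 2 ≤ q ^ 3 := pow_le_pow_right₀ hq1 (by norm_num)
  have hB : N + 3 * F - (1 + s) * (1 + 2 * s + 3 * w - 2 * s ^ 2) ≤ 3 * X + 11 * q ^ 3 := by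
    linarith
  have hA : N - 1 - s ≤ 9 / 8 * N := by linarith
  have h1' : X ^ 2 ≤ 9 / 8 * N * (3 * X + 11 * q ^ 3) := by
    have h3 : (N - 1 - s) * (N + 3 * F - (1 + s) * (1 + 2 * s + 3 * w - 2 * s ^ 2)) ≤
        (N - 1 - s) * (3 * X + 11 * q ^ 3) := mul_le_mul_of_nonneg_left hB ha0
    have h4 : (N - 1 - s) * (3 * X + 11 * q ^ 3) ≤ 9 / 8 * N * (3 * X + 11 * q ^ 3) :=
      mul_le_mul_of_nonneg_right hA (by positivity)
    linarith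
  have h5 : N * X ≤ 8 / 49 * X ^ 2 := by
    have h51 : 49 / 8 * N * X ≤ X * X := mul_le_mul_of_nonneg_right hXN hX0.le
    have h52 : X * X = X ^ 2 := by ring
    have h53 : 49 / 8 * N * X = 49 / 8 * (N * X) := by ring
    linarith
  have h6 : X ^ 2 ≤ 29 * N * q ^ 3 := by
    have h61 : 0 ≤ N * q ^ 3 := by positivity
    have h62 : 9 / 8 * N * (3 * X + 11 * q ^ 3) = 27 / 8 * (N * X) + 99 / 8 * (N * q ^ 3) := by ring
    have h63 : 29 * N * q ^ 3 = 29 * (N * q ^ 3) := by ring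
    rw [h62] at h1'
    rw [h63]
    linarith
  have h7 : (49 / 64 * N ^ 2) ^ 2 ≤ (D * X) ^ 2 := pow_le_pow_left₀ (by positivity) h2' 2
  have h8 : (D * X) ^ 2 ≤ 29 * N * (t * q) ^ 3 := by
    have h81 : D ^ 2 * X ^ 2 ≤ D ^ 2 * (29 * N * q ^ 3) := mul_le_mul_of_nonneg_left h6 (by positivity)
    have h82 : D ^ 2 * (29 * N * q ^ 3) = 29 * N * (t * q) ^ 3 := by
      rw [← ht3]; ring
    rw [mul_pow]
    linarith
  have h9 : (t * q) ^ 3 ≤ (N / 8) ^ 3 := pow_le_pow_left₀ (by positivity) (by linarith) 3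
  have h10 : 29 * N * (t * q) ^ 3 ≤ 29 * N * (N / 8) ^ 3 :=
    mul_le_mul_of_nonneg_left h9 (by positivity)
  have h11 : (49 / 64 * N ^ 2) ^ 2 ≤ 29 * N * (N / 8) ^ 3 := by linarith
  have h12 : 0 < N ^ 4 := by positivity
  have h13 : (49 / 64 * N ^ 2) ^ 2 = 2401 / 4096 * N ^ 4 := by ring
  have h14 : 29 * N * (N / 8) ^ 3 = 29 / 512 * N ^ 4 := by ring
  rw [h13, h14] at h11
  linarith

end Pool.Agent.Lib.H46AE
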