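import Pool.Agent.Lib.H46AE.E1

/-!
# Project H46AE, chunk E2: the second bound
-/

open Finset

namespace Pool.Agent.Lib.H46AE

open Pool.Agent.Lib.Helper17.AE Pool.Agent.Lib.H86AE

variable {d : ℕ}

/-- Proof. As `card_bound` / `card_bound_diam` in `Lib/H86AE/Num.lean`: trivial if `V = ∅`. `ι = V`, `x i = i`, `f = ff x`: `main_ineqs` (with `N = card`, `F = FF f`,
`s = RR f / N - 1`, `w = (∑ (rr f i - 1)²)/N`). `rr f i - 1 = ∑_{j ≠ i} (1 - dist²)`, which is the sum over the at most `d + 1` points of `nbr V i` (the others give `0`), each term is at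
most `δ` in absolute value: `|rr f i - 1| ≤ κ := δ (d + 1)`. So `w ≤ κ²`, and `s` is the mean of the `rr f i - 1`: `|s| ≤ κ`. `num_bound` with `dd = d`, `D = d + 2`,
`t = (d + 2) ^ (2/3 : ℝ)`. -/
theorem flat_bound {V : Finset (E d)} (hV : AlmostEq V) {δ : ℝ} (hδ : 0 ≤ δ)
    (h : ∀ x ∈ V, ∀ y ∈ V, x ≠ y → |ex x y| ≤ δ) :
    (V.card : ℝ) ≤ 8 * (((d : ℝ) + 2) + ((d : ℝ) + 2) ^ (2 / 3 : ℝ) * (1 + δ * (d + 1))) := by
  classical
  have hd0 : (0 : ℝ) ≤ d := Nat.cast_nonneg d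
  have ht0 : (0 : ℝ) ≤ ((d : ℝ) + 2) ^ (2 / 3 : ℝ) := Real.rpow_nonneg (by linarith) _
  have ht3 : (((d : ℝ) + 2) ^ (2 / 3 : ℝ)) ^ 3 = ((d : ℝ) + 2) ^ 2 := by
    rw [← Real.rpow_natCast, ← Real.rpow_mul (by linarith), ← Real.rpow_natCast]
    norm_num
  have hκ0 : 0 ≤ δ * ((d : ℝ) + 1) := mul_nonneg hδ (by linarith)
  rcases V.eq_empty_or_nonempty with hVe | hVne
  · rw [hVe, Finset.card_empty, Nat.cast_zero]
    have h1 : 0 ≤ ((d : ℝ) + 2) ^ (2 / 3 : ℝ) * (1 + δ * (d + 1)) := mul_nonneg ht0 (by linarith)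
    linarith
  let ι := {x // x ∈ V}
  have : Nonempty ι := ⟨⟨hVne.choose, hVne.choose_spec⟩⟩
  let x : ι → E d := fun i => i.1
  have hcard : (Fintype.card ι : ℝ) = V.card := by
    simp [ι]
  have hne : ∀ i j : ι, i ≠ j → x i ≠ x j := fun i j h h2 => h (Subtype.ext h2)
  have hzero : ∀ i j : ι, dist (x i) (x j) = 1 → ff x i j = 0 := by
    intro i j h
    unfold ff
    rw [h]
    norm_num
  have htri : ∀ i j k : ι, i ≠ j → j ≠ k → i ≠ k →
      ff x i j = 0 ∨ ff x j k = 0 ∨ ff x i k = 0 := by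
    intro i j k hij hjk hik
    rcases hV (x i) i.2 (x j) j.2 (x k) k.2 (hne i j hij) (hne j k hjk) (hne i k hik)
      with h | h | h
    · exact Or.inl (hzero _ _ h)
    · exact Or.inr (Or.inl (hzero _ _ h))
    · exact Or.inr (Or.inr (hzero _ _ h))
  have hrow : ∀ i : ι, |rr (ff x) i - 1| ≤ δ * ((d : ℝ) + 1) := by
    intro i
    have e0 : rr (ff x) i = ∑ z ∈ V, (1 - dist (x i) z ^ 2) := by
      unfold rr ff
      rw [← Finset.sum_coe_sort V]
    have hsub : nbr V (x i) ⊆ V.erase (x i) := by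
      intro y hy
      rw [mem_nbr] at hy
      exact Finset.mem_erase.mpr ⟨hy.2.1, hy.1⟩
    have e1 : ∑ y ∈ V.erase (x i), (1 - dist (x i) y ^ 2) = ∑ y ∈ nbr V (x i), (1 - dist (x i) y ^ 2) := by
      refine (Finset.sum_subset hsub ?_).symm
      intro y hy hy2
      have hy3 := Finset.mem_erase.mp hy
      have hd1 : dist (x i) y = 1 := by
        by_contra h
        exact hy2 (mem_nbr.mpr ⟨hy3.2, hy3.1, h⟩)
      rw [hd1]
      norm_num
    have e2 : rr (ff x) i - 1 = ∑ y ∈ nbr V (x i), (1 - dist (x i) y ^ 2) := by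
      rw [e0, ← Finset.add_sum_erase V _ i.2, e1]
      show (1 - dist (x i) (x i) ^ 2) + _ - 1 = _
      rw [dist_self]
      ring
    rw [e2]
    refine (Finset.abs_sum_le_sum_abs _ _).trans ?_
    have e3 : ∑ y ∈ nbr V (x i), |1 - dist (x i) y ^ 2| ≤ ∑ _y ∈ nbr V (x i), δ := by
      refine Finset.sum_le_sum fun y hy => ?_
      rw [mem_nbr] at hy
      have h1 := h (x i) i.2 y hy.1 (fun he => hy.2.1 he.symm)
      unfold ex at h1
      rw [abs_sub_comm]
      exact h1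
    refine e3.trans ?_
    rw [Finset.sum_const, nsmul_eq_mul, mul_comm]
    have e4 : ((nbr V (x i)).card : ℝ) ≤ (d : ℝ) + 1 := by
      exact_mod_cast nbr_card hV i.2
    exact mul_le_mul_of_nonneg_left e4 hδ
  set N : ℝ := (Fintype.card ι : ℝ) with hNdef
  set F : ℝ := FF (ff x) with hFdef
  set s : ℝ := RR (ff x) / N - 1 with hsdef
  set w : ℝ := (∑ i, (rr (ff x) i - 1) ^ 2) / N with hwdef
  obtain ⟨m1, m2, m3⟩ := main_ineqs x htri N F s w rfl rfl rfl rfl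
  have hN0 : 0 < N := by
    rw [hNdef]
    exact_mod_cast Fintype.card_pos
  have hF0 : 0 ≤ F := by
    rw [hFdef]
    unfold FF
    refine Finset.sum_nonneg fun i _ => Finset.sum_nonneg fun j _ => ?_
    split_ifs
    · exact le_rfl
    · exact sq_nonneg _
  have hw0 : 0 ≤ w := div_nonneg (Finset.sum_nonneg fun i _ => sq_nonneg _) hN0.le
  have hwκ : w ≤ (δ * ((d : ℝ) + 1)) ^ 2 := by
    rw [hwdef, div_le_iff₀ hN0]
    have h1 : ∑ i, (rr (ff x) i - 1) ^ 2 ≤ ∑ _i : ι, (δ * ((d : ℝ) + 1)) ^ 2 := by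
      refine Finset.sum_le_sum fun i _ => ?_
      rw [← sq_abs (rr (ff x) i - 1)]
      exact pow_le_pow_left₀ (abs_nonneg _) (hrow i) 2
    refine h1.trans ?_
    rw [Finset.sum_const, Finset.card_univ, nsmul_eq_mul, mul_comm]
  have hsκ : |s| ≤ δ * ((d : ℝ) + 1) := by
    have h1 : s = (∑ i, (rr (ff x) i - 1)) / N := by
      rw [hsdef, Finset.sum_sub_distrib, sub_div]
      simp only [Finset.sum_const, Finset.card_univ, nsmul_eq_mul, mul_one]
      rw [div_self hN0.ne']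
      rfl
    rw [h1, abs_div, abs_of_pos hN0, div_le_iff₀ hN0]
    refine (Finset.abs_sum_le_sum_abs _ _).trans ?_
    refine (Finset.sum_le_sum fun i _ => hrow i).trans ?_
    rw [Finset.sum_const, Finset.card_univ, nsmul_eq_mul, mul_comm]
  rw [← hcard]
  exact num_bound N F s w ((d : ℝ) + 2) d (δ * ((d : ℝ) + 1)) (((d : ℝ) + 2) ^ (2 / 3 : ℝ)) m1 m2 hsκ hw0 hwκ hF0 hd0
    (by linarith) (by linarith) ht0 ht3 hκ0

end Pool.Agent.Lib.H46AE
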