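import Pool.Agent.Lib.H46AE.Defs

/-!
# Project H46AE, chunk F1: the pair with the largest energy
-/

open Finset

namespace Pool.Agent.Lib.H46AE

open Pool.Agent.Lib.Helper17.AE

variable {d : ℕ}

/-- `(x, T)` maximizes `(∑_{y ∈ S} ex v y)² / |S|` over all `v ∈ V` and all sets `S` of `nbr`s of `v`, and `e` is the maximum. -/
structure Emx (V : Finset (E d)) (x : E d) (T : Finset (E d)) (e : ℝ) : Prop where
  mem : x ∈ V
  sub : T ⊆ nbr V x
  ne : T.Nonempty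
  eq : (∑ y ∈ T, ex x y) ^ 2 = e * T.card
  max : ∀ v ∈ V, ∀ S ⊆ nbr V v, (∑ y ∈ S, ex v y) ^ 2 ≤ e * S.card

/-- Proof. Finitely many pairs `(v, S)` with `v ∈ V`, `S ⊆ nbr V v`, `S ≠ ∅` (`V.sigma` with `powerset`, or `Finset.exists_max_image` twice); there is one by `hne`. Take one with the
largest `(∑_{y ∈ S} ex v y)² / S.card =: e`. For `S = ∅` the inequality `max` is `0 ≤ 0`. -/
theorem exists_emx {V : Finset (E d)} (hne : ∃ x ∈ V, (nbr V x).Nonempty) : ∃ x T e, Emx V x T e := by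
  classical
  obtain ⟨v, hv, y, hy⟩ := hne
  let P : Finset (Σ _ : E d, Finset (E d)) :=
    (V.sigma fun v => (nbr V v).powerset).filter fun p => p.2.Nonempty
  have hP : P.Nonempty :=
    ⟨⟨v, {y}⟩, Finset.mem_filter.2 ⟨Finset.mem_sigma.2 ⟨hv, Finset.mem_powerset.2
      (Finset.singleton_subset_iff.2 hy)⟩, Finset.singleton_nonempty y⟩⟩
  obtain ⟨⟨x, S⟩, hp, hmax⟩ := Finset.exists_max_image P
    (fun p => (∑ y ∈ p.2, ex p.1 y) ^ 2 / (p.2.card : ℝ)) hP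
  obtain ⟨hp1, hp2⟩ := Finset.mem_filter.1 hp
  obtain ⟨hx, hS⟩ := Finset.mem_sigma.1 hp1
  have hS0 : S.Nonempty := hp2
  have hSc : (0 : ℝ) < S.card := by exact_mod_cast hS0.card_pos
  refine ⟨x, S, (∑ y ∈ S, ex x y) ^ 2 / (S.card : ℝ), hx, Finset.mem_powerset.1 hS, hS0,
    (div_mul_cancel₀ _ hSc.ne').symm, ?_⟩
  intro u hu R hR
  rcases R.eq_empty_or_nonempty with h0 | h0
  · subst h0
    simp
  · have hRc : (0 : ℝ) < R.card := by exact_mod_cast h0.card_pos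
    have h1 : (∑ y ∈ R, ex u y) ^ 2 / (R.card : ℝ) ≤ (∑ y ∈ S, ex x y) ^ 2 / (S.card : ℝ) :=
      hmax ⟨u, R⟩ (Finset.mem_filter.2 ⟨Finset.mem_sigma.2 ⟨hu, Finset.mem_powerset.2 hR⟩, h0⟩)
    rwa [div_le_iff₀ hRc] at h1

variable {V : Finset (E d)} {x : E d} {T : Finset (E d)} {e : ℝ}

/-- Proof. `∑_{y ∈ T} ex x y = T.card * mn T x`, `T.card > 0`. -/
theorem Emx.e_eq (h : Emx V x T e) : e = T.card * mn T x ^ 2 := by
  have h1 : (0 : ℝ) < T.card := by exact_mod_cast h.ne.card_pos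
  have h2 : (T.card : ℝ) * mn T x = ∑ y ∈ T, ex x y := by
    unfold mn
    rw [← mul_assoc, mul_inv_cancel₀ h1.ne', one_mul]
  have h3 := h.eq
  rw [← h2, mul_pow] at h3
  have h4 : (T.card : ℝ) * (e - T.card * mn T x ^ 2) = 0 := by linear_combination -h3
  have h5 := (mul_eq_zero.1 h4).resolve_left h1.ne'
  linarith

/-- Proof. `e T.card = (∑)² ≥ 0`, in fact `ex x y ≠ 0` for one `y ∈ T` (`ex_ne_of_nbr`), and `max` for `S = {y}`: `0 < (ex x y)² ≤ e`. -/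
theorem Emx.pos (h : Emx V x T e) : 0 < e := by
  obtain ⟨y, hy⟩ := h.ne
  have h1 := h.max x h.mem {y} (Finset.singleton_subset_iff.2 (h.sub hy))
  rw [Finset.sum_singleton, Finset.card_singleton, Nat.cast_one, mul_one] at h1
  exact lt_of_lt_of_le (by have := ex_ne_of_nbr (h.sub hy); positivity) h1

/-- Proof. As `Top.row` (chunk B1): for `y ∈ V` and `S ⊆ V` let `S' = S ∩ nbr V y`; `∑_{z ∈ S.erase y} ex y z = ∑_{z ∈ S'} ex y z` (for `z ∈ S`, `z ≠ y`, `z ∉ nbr V y` is `dist y z = 1`,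
`unit_of_not_nbr`, `ex y z = 0`; `y ∉ nbr V y`). `h.max`: `(∑)² ≤ e S'.card ≤ e D`. -/
theorem Emx.row (h : Emx V x T e) {D : ℕ} (hD : ∀ v ∈ V, (nbr V v).card ≤ D) {y : E d}
    (hy : y ∈ V) {S : Finset (E d)} (hS : S ⊆ V) :
    |∑ z ∈ S.erase y, ex y z| ≤ Real.sqrt (e * D) := by
  classical
  have h1 : ∑ z ∈ S.filter (fun z => z ∈ nbr V y), ex y z = ∑ z ∈ S.erase y, ex y z := by
    refine Finset.sum_subset (fun z hz => ?_) (fun z hz hz' => ?_)
    · have h2 := Finset.mem_filter.1 hz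
      refine Finset.mem_erase.2 ⟨?_, h2.1⟩
      rintro rfl
      exact (mem_nbr.1 h2.2).2.1 rfl
    · obtain ⟨h2, h3⟩ := Finset.mem_erase.1 hz
      have h4 : z ∉ nbr V y := fun h5 => hz' (Finset.mem_filter.2 ⟨h3, h5⟩)
      exact ex_of_unit (unit_of_not_nbr (hS h3) h2 h4)
  have h2 : S.filter (fun z => z ∈ nbr V y) ⊆ nbr V y := fun z hz => (Finset.mem_filter.1 hz).2
  have h3 := h.max y hy _ h2
  have h4 : ((S.filter (fun z => z ∈ nbr V y)).card : ℝ) ≤ D := by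
    exact_mod_cast (Finset.card_le_card h2).trans (hD y hy)
  rw [← h1]
  exact Real.abs_le_sqrt (h3.trans (mul_le_mul_of_nonneg_left h4 h.pos.le))

end Pool.Agent.Lib.H46AE
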