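import Pool.Agent.Lib.H46AE.A4
import Pool.Agent.Lib.H46AE.F1

/-!
# Project H46AE, chunk F2: points at distance one from the pair with the largest energy
-/

open Finset

namespace Pool.Agent.Lib.H46AE

open Pool.Agent.Lib.Helper17.AE

variable {d : ℕ}

private theorem f2_real (a k N R D e : ℝ) (hk : 1 ≤ k) (hkD : k ≤ D) (hN : 0 < N) (hR : 2 ≤ R)
    (hR2 : R ^ 2 = e * D) (he : 4 ≤ e) (hek : e = k * a ^ 2) (ha : -1 ≤ a)
    (h : 3 / 4 * a ^ 2 * N ≤ (1 + a) * (2 + 4 * R)) :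
    N ^ 2 * e ≤ 196 * D ^ 3 ∨ N ≤ 14 * D := by
  have hk0 : 0 < k := by linarith
  have hD0 : 0 < D := by linarith
  have h5R : (1 + a) * (2 + 4 * R) ≤ (1 + a) * (5 * R) :=
    mul_le_mul_of_nonneg_left (by linarith) (by linarith)
  by_cases ha1 : a ≤ 1
  · left
    have h1 : (1 + a) * (5 * R) ≤ 2 * (5 * R) :=
      mul_le_mul_of_nonneg_right (by linarith) (by linarith)
    have h2 : 3 / 4 * a ^ 2 * N ≤ 10 * R := by linarith
    have h3 : k * (3 / 4 * a ^ 2 * N) ≤ D * (10 * R) := by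
      calc k * (3 / 4 * a ^ 2 * N) ≤ k * (10 * R) := mul_le_mul_of_nonneg_left h2 hk0.le
        _ ≤ D * (10 * R) := mul_le_mul_of_nonneg_right hkD (by linarith)
    have h4 : 3 / 4 * e * N ≤ 10 * D * R := by
      rw [hek]
      linarith
    have h5 : 0 ≤ 3 / 4 * e * N := by positivity
    have h6 : (3 / 4 * e * N) ^ 2 ≤ (10 * D * R) ^ 2 := pow_le_pow_left₀ h5 h4 2
    have h7 : e * (9 / 16 * (N ^ 2 * e)) ≤ e * (100 * D ^ 3) := by
      calc e * (9 / 16 * (N ^ 2 * e)) = (3 / 4 * e * N) ^ 2 := by ring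
        _ ≤ (10 * D * R) ^ 2 := h6
        _ = 100 * D ^ 2 * R ^ 2 := by ring
        _ = e * (100 * D ^ 3) := by rw [hR2]; ring
    have h8 : 9 / 16 * (N ^ 2 * e) ≤ 100 * D ^ 3 := le_of_mul_le_mul_left h7 (by linarith)
    have h9 : 0 < D ^ 3 := by positivity
    linarith
  · right
    rw [not_le] at ha1
    have ha0 : 0 < a := by linarith
    have h1 : (1 + a) * (5 * R) ≤ 2 * a * (5 * R) :=
      mul_le_mul_of_nonneg_right (by linarith) (by linarith)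
    have h2 : a * (3 / 4 * a * N) ≤ a * (10 * R) := by
      calc a * (3 / 4 * a * N) = 3 / 4 * a ^ 2 * N := by ring
        _ ≤ a * (10 * R) := by linarith
    have h3 : 3 / 4 * a * N ≤ 10 * R := le_of_mul_le_mul_left h2 ha0
    have h4 : (3 / 4 * a * N) ^ 2 ≤ (10 * R) ^ 2 := pow_le_pow_left₀ (by positivity) h3 2
    have h5 : a ^ 2 * (9 / 16 * N ^ 2) ≤ a ^ 2 * (100 * (k * D)) := by
      calc a ^ 2 * (9 / 16 * N ^ 2) = (3 / 4 * a * N) ^ 2 := by ring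
        _ ≤ (10 * R) ^ 2 := h4
        _ = 100 * R ^ 2 := by ring
        _ = a ^ 2 * (100 * (k * D)) := by rw [hR2, hek]; ring
    have h6 : 9 / 16 * N ^ 2 ≤ 100 * (k * D) := le_of_mul_le_mul_left h5 (by positivity)
    have h7 : k * D ≤ D * D := mul_le_mul_of_nonneg_right hkD hD0.le
    have h8 : N ^ 2 ≤ (14 * D) ^ 2 := by nlinarith
    exact le_of_sq_le_sq h8 (by positivity)

/-- Proof. `Z = sph V x`, `N = Z.card`, trivial if `N = 0`. `T` is a unit clique (`clq_nbr`, `h.sub`), `k = T.card`, `1 ≤ k ≤ D`, `a = mn T x`, `e = k a²` (`e_eq`), `R = √(e D)`, so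
`R² = e D ≥ 4`, `R ≥ 2`. As in chunk B2: `|∑_{z ∈ Z} mn T z| = |(1/k) ∑_{y ∈ T} ∑_{z ∈ Z} ex y z| ≤ R` (`Emx.row`; `y ∉ Z` for `y ∈ T`, so `Z.erase y = Z`) and
`∑_z ∑_{w ∈ Z.erase z} ex z w ≥ -N R`. `key_ineq` with `M = R`, `s = N R`: `a² - 1/k ≤ (1 + a)(2 + 4R)/N`; `1/k ≤ a²/4`, so `(3/4) a² N ≤ (1 + a)(2 + 4R) ≤ (1 + a) 5R` (`a ≥ -1`, `mn_ge`).
If `|a| ≤ 1`: `(3/4) a² N ≤ 10 R`, times `k`: `e N ≤ (40/3) k R ≤ (40/3) D R`, squared `e² N² ≤ (1600/9) D² e D`, so `N² e ≤ 178 D³`.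
If `a > 1`: `1 + a ≤ 2a`, `(3/4) a N ≤ 10 R`, squared `a² N² ≤ (1600/9) e D = (1600/9) k a² D`, so `N² ≤ 178 D² ≤ (14 D)²`. -/
theorem far_two {V : Finset (E d)} (hV : AlmostEq V) {x : E d} {T : Finset (E d)} {e : ℝ}
    (h : Emx V x T e) (he : 4 ≤ e) {D : ℕ} (hD : ∀ v ∈ V, (nbr V v).card ≤ D) :
    ((sph V x).card : ℝ) ^ 2 * e ≤ 196 * D ^ 3 ∨ ((sph V x).card : ℝ) ≤ 14 * D := by
  classical
  rcases (sph V x).eq_empty_or_nonempty with hZ0 | hZne
  · right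
    rw [hZ0, Finset.card_empty, Nat.cast_zero]
    positivity
  have hkpos : 0 < T.card := Finset.card_pos.2 h.ne
  have hNpos : 0 < (sph V x).card := Finset.card_pos.2 hZne
  have hk1 : (1 : ℝ) ≤ T.card := by exact_mod_cast hkpos
  have hN1 : (1 : ℝ) ≤ (sph V x).card := by exact_mod_cast hNpos
  have hkD : (T.card : ℝ) ≤ D := by
    exact_mod_cast (Finset.card_le_card h.sub).trans (hD x h.mem)
  have hD1 : (1 : ℝ) ≤ D := hk1.trans hkD
  obtain ⟨R, hR⟩ : ∃ R, R = Real.sqrt (e * D) := ⟨_, rfl⟩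
  have heD : 4 ≤ e * D := by nlinarith
  have hR2 : R ^ 2 = e * D := by
    rw [hR]
    exact Real.sq_sqrt (by linarith)
  have hRge : 2 ≤ R := by
    rw [hR]
    exact Real.le_sqrt_of_sq_le (by linarith)
  have hR0 : 0 ≤ R := by linarith
  have hK : Clq T := (clq_nbr hV h.mem).mono h.sub
  have hZV : sph V x ⊆ V := fun z hz => (mem_sph.1 hz).1
  have hrow : ∀ y ∈ T, |∑ z ∈ sph V x, ex y z| ≤ R := by
    intro y hy
    obtain ⟨h1, h2, h3⟩ := mem_nbr.1 (h.sub hy)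
    have hyZ : y ∉ sph V x := by
      intro hy'
      have h4 := (mem_sph.1 hy').2
      rw [dist_comm] at h4
      exact h3 h4
    have h5 := h.row hD h1 hZV
    rwa [Finset.erase_eq_of_notMem hyZ, ← hR] at h5
  have hM : |∑ z ∈ sph V x, mn T z| ≤ R := by
    have e1 : ∑ z ∈ sph V x, mn T z = (T.card : ℝ)⁻¹ * ∑ y ∈ T, ∑ z ∈ sph V x, ex y z := by
      unfold mn
      rw [← Finset.mul_sum, Finset.sum_comm]
      congr 1
      exact Finset.sum_congr rfl fun y _ => Finset.sum_congr rfl fun z _ => ex_comm z y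
    rw [e1, abs_mul, abs_of_nonneg (by positivity : (0 : ℝ) ≤ (T.card : ℝ)⁻¹),
      inv_mul_le_iff₀ (by linarith)]
    refine (Finset.abs_sum_le_sum_abs _ _).trans ((Finset.sum_le_sum hrow).trans ?_)
    rw [Finset.sum_const, nsmul_eq_mul]
  have hs : -(((sph V x).card : ℝ) * R) ≤
      ∑ z ∈ sph V x, ∑ w ∈ (sph V x).erase z, ex z w := by
    have e1 : ∑ _z ∈ sph V x, (-R) ≤ ∑ z ∈ sph V x, ∑ w ∈ (sph V x).erase z, ex z w := by
      refine Finset.sum_le_sum fun z hz => ?_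
      have h5 := h.row hD (hZV hz) hZV
      rw [← hR] at h5
      exact (abs_le.1 h5).1
    rw [Finset.sum_const, nsmul_eq_mul] at e1
    linarith
  have key := key_ineq hK h.ne x (sph V x) (fun z hz => (mem_sph.1 hz).2) hZne hM
    (by positivity : 0 ≤ ((sph V x).card : ℝ) * R) hs
  have hge : -1 ≤ mn T x := mn_ge hK h.ne x
  have hek := h.e_eq
  obtain ⟨a, ha⟩ : ∃ a, a = mn T x := ⟨_, rfl⟩
  obtain ⟨k, hk⟩ : ∃ k : ℝ, k = T.card := ⟨_, rfl⟩
  obtain ⟨N, hN⟩ : ∃ N : ℝ, N = (sph V x).card := ⟨_, rfl⟩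
  rw [← ha] at key hge hek
  rw [← hk] at key hek hk1 hkD
  rw [← hN] at key hN1 ⊢
  have hN0 : 0 < N := by linarith
  have hk0 : 0 < k := by linarith
  have e1 : (1 + a) * (2 * (1 / N + N * R / N ^ 2) + 2 * (R / N)) = (1 + a) * (2 + 4 * R) / N := by
    field_simp
    ring
  rw [e1, le_div_iff₀ hN0] at key
  have hinv : 1 / k ≤ a ^ 2 / 4 := by
    rw [div_le_div_iff₀ hk0 (by norm_num)]
    linarith
  have h34 : 3 / 4 * a ^ 2 * N ≤ (1 + a) * (2 + 4 * R) := by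
    refine le_trans ?_ key
    refine mul_le_mul_of_nonneg_right ?_ hN0.le
    linarith
  exact f2_real a k N R D e hk1 hkD hN0 hRge hR2 he hek hge h34

end Pool.Agent.Lib.H46AE
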