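import Pool.Agent.Lib.H46AE.A2
import Pool.Agent.Lib.H46AE.F1

/-!
# Project H46AE, chunk F3: the trace bound
-/

open Finset

namespace Pool.Agent.Lib.H46AE

open Pool.Agent.Lib.Helper17.AE

variable {d : ℕ}

/-- Proof. For `v ∈ V` with `K = nbr V v ≠ ∅` (a unit clique, `clq_nbr`), `k = K.card`, `a = mn K v`: `∑_{y ∈ K} ex v y ^ 2 = k a² + ∑_{y ∈ K} (ex v y - a)²`; `k (k a²) = (∑_{y ∈ K} ex v y)² ≤ e k` (`max`),
so `k a² ≤ e` and `|a| ≤ √e`; `∑ (ex v y - a)² ≤ 2a + 1 + 1/k ≤ 2√e + 2` (`var_le`). So `∑_{y ∈ nbr V v} (1 - dist v y ^ 2) ^ 2 ≤ e + 2√e + 2` (also if `nbr V v = ∅`; `0 < e`), and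
`∑_{y ∈ V} (1 - dist v y ^ 2) ^ 2 ≤ e + 2√e + 3` (`row_sum`). `trace_sq_le` for the `lift`s of the points of `V` and `ε = 1` as in the proof of `card_le_of_small`:
`n² ≤ (d + 2) n (3 + e + 2√e)`, `n = V.card`. -/
theorem trace_bound {V : Finset (E d)} (hV : AlmostEq V) {x : E d} {T : Finset (E d)} {e : ℝ}
    (h : Emx V x T e) : (V.card : ℝ) ≤ (d + 2) * (3 + e + 2 * Real.sqrt e) := by
  classical
  have he : 0 < e := h.pos
  have hse : 0 ≤ Real.sqrt e := Real.sqrt_nonneg e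
  have hrow : ∀ v ∈ V, ∑ y ∈ nbr V v, (1 - dist v y ^ 2) ^ 2 ≤ e + 2 * Real.sqrt e + 2 := by
    intro v hv
    rcases (nbr V v).eq_empty_or_nonempty with hK | hK
    · rw [hK, Finset.sum_empty]
      linarith
    · have hk : (0 : ℝ) < ((nbr V v).card : ℝ) := by exact_mod_cast hK.card_pos
      have hk1 : (1 : ℝ) ≤ ((nbr V v).card : ℝ) := by exact_mod_cast hK.card_pos
      have hvar := var_le (clq_nbr hV hv) hK v
      have hsum : ∑ y ∈ nbr V v, ex v y = (nbr V v).card * mn (nbr V v) v := by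
        unfold mn
        rw [← mul_assoc, mul_inv_cancel₀ hk.ne', one_mul]
      have hmax := h.max v hv (nbr V v) (Finset.Subset.refl _)
      rw [hsum] at hmax
      have hka : (nbr V v).card * mn (nbr V v) v ^ 2 ≤ e := by
        have h1 : (nbr V v).card * (((nbr V v).card : ℝ) * mn (nbr V v) v ^ 2) ≤
            (nbr V v).card * e := by
          calc (nbr V v).card * (((nbr V v).card : ℝ) * mn (nbr V v) v ^ 2) =
              ((nbr V v).card * mn (nbr V v) v) ^ 2 := by ring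
            _ ≤ e * (nbr V v).card := hmax
            _ = (nbr V v).card * e := mul_comm _ _
        exact le_of_mul_le_mul_left h1 hk
      have ha2 : mn (nbr V v) v ^ 2 ≤ e := by
        have h2 : 1 * mn (nbr V v) v ^ 2 ≤ (nbr V v).card * mn (nbr V v) v ^ 2 :=
          mul_le_mul_of_nonneg_right hk1 (sq_nonneg _)
        linarith
      have ha : mn (nbr V v) v ≤ Real.sqrt e := Real.le_sqrt_of_sq_le ha2
      have hinv : 1 / ((nbr V v).card : ℝ) ≤ 1 := by
        rw [div_le_one hk]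
        exact hk1
      have hid : ∑ y ∈ nbr V v, (1 - dist v y ^ 2) ^ 2 =
          ∑ y ∈ nbr V v, (ex v y - mn (nbr V v) v) ^ 2 +
            (nbr V v).card * mn (nbr V v) v ^ 2 := by
        have h3 : ∀ y ∈ nbr V v, (1 - dist v y ^ 2) ^ 2 =
            (ex v y - mn (nbr V v) v) ^ 2 + (2 * mn (nbr V v) v * ex v y -
              mn (nbr V v) v ^ 2) := fun y _ => by
          unfold ex
          ring
        rw [Finset.sum_congr rfl h3, Finset.sum_add_distrib, Finset.sum_sub_distrib,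
          ← Finset.mul_sum, hsum, Finset.sum_const, nsmul_eq_mul]
        ring
      rw [hid]
      linarith
  have ht := trace_sq_le (fun x : V => lift (x : E d)) (fun _ => 1) (fun _ => by norm_num)
  simp only [form_lift, dist_self] at ht
  have hL : ∑ x : V, (1 : ℝ) * (1 - 0 ^ 2) = (V.card : ℝ) := by simp
  rw [hL] at ht
  have hR : ∑ x : V, ∑ y : V, (1 - dist (x : E d) (y : E d) ^ 2) ^ 2 ≤
      (V.card : ℝ) * (3 + e + 2 * Real.sqrt e) := by
    have h4 : ∀ x : V, ∑ y : V, (1 - dist (x : E d) (y : E d) ^ 2) ^ 2 ≤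
        3 + e + 2 * Real.sqrt e := by
      intro x
      rw [Finset.sum_coe_sort V (fun y => (1 - dist (x : E d) y ^ 2) ^ 2), row_sum (x : E d) x.2]
      linarith [hrow x x.2]
    refine (Finset.sum_le_sum fun x _ => h4 x).trans ?_
    rw [Finset.sum_const, nsmul_eq_mul, Finset.card_univ, Fintype.card_coe]
  have hm : (0 : ℝ) < (V.card : ℝ) := by exact_mod_cast Finset.card_pos.mpr ⟨x, h.mem⟩
  have hd : (0 : ℝ) ≤ (d : ℝ) + 2 := by positivity
  have h2 : (V.card : ℝ) ^ 2 ≤ ((d : ℝ) + 2) * ((V.card : ℝ) * (3 + e + 2 * Real.sqrt e)) :=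
    ht.trans (mul_le_mul_of_nonneg_left hR hd)
  have h5 : (V.card : ℝ) * (V.card : ℝ) ≤
      (V.card : ℝ) * (((d : ℝ) + 2) * (3 + e + 2 * Real.sqrt e)) := by
    calc (V.card : ℝ) * (V.card : ℝ) = (V.card : ℝ) ^ 2 := (sq _).symm
      _ ≤ _ := h2
      _ = _ := by ring
  exact le_of_mul_le_mul_left h5 hm

end Pool.Agent.Lib.H46AE
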