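import Pool.Agent.Lib.H46AE.F2
import Pool.Agent.Lib.H46AE.F3

/-!
# Project H46AE, chunk F4: the degree theorem
-/

open Finset

namespace Pool.Agent.Lib.H46AE

open Pool.Agent.Lib.Helper17.AE

variable {d : ℕ}

/-- Proof. `n = V.card`, `D' = d + 2`, `q = D' ^ (1/3)`, `q³ = D'`, `q ≥ 1`. If all `nbr V x` are empty, `V` is a unit clique and `n ≤ d + 1`. Otherwise `exists_emx`. If `e < 4`: `√e ≤ 2`, `trace_bound`
gives `n ≤ 11 D'`. If `e ≥ 4`: `2√e ≤ e`, so `n ≤ 3 e D'`. `V ⊆ {x} ∪ nbr V x ∪ sph V x` (`unit_of_not_nbr`), so `n ≤ D' + N`, `N = (sph V x).card` (`clq_nbr`, `Clq.card_le`). `far_two`: if `N ≤ 14 D` then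
`n ≤ D' + 14 D q`. Otherwise `N² e ≤ 196 D³`; if `n ≤ 2 D'` we are done, otherwise `n ≤ 2N`, `n³ ≤ 4 N² · 3 e D' ≤ 2352 D³ q³ ≤ (14 D q)³`. -/
theorem degree_bound {V : Finset (E d)} (hV : AlmostEq V) {D : ℕ}
    (hD : ∀ v ∈ V, (nbr V v).card ≤ D) :
    (V.card : ℝ) ≤ 11 * (d + 2) + 14 * D * ((d : ℝ) + 2) ^ (1 / 3 : ℝ) := by
  classical
  have hd0 : (0 : ℝ) ≤ d := Nat.cast_nonneg d
  have hD0 : (0 : ℝ) ≤ D := Nat.cast_nonneg D
  set D' : ℝ := (d : ℝ) + 2 with hD'
  have hD'1 : 1 ≤ D' := by rw [hD']; linarith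
  have hD'0 : 0 < D' := by linarith
  set q : ℝ := D' ^ (1 / 3 : ℝ) with hq
  have hq1 : 1 ≤ q := Real.one_le_rpow hD'1 (by norm_num)
  have hq0 : 0 ≤ q := by linarith
  have hq3 : q ^ 3 = D' := by
    rw [hq, ← Real.rpow_natCast, ← Real.rpow_mul hD'0.le]
    norm_num
  have hDq : 0 ≤ (D : ℝ) * q := mul_nonneg hD0 hq0
  by_cases hne : ∃ x ∈ V, (nbr V x).Nonempty
  · obtain ⟨x, T, e, h⟩ := exists_emx hne
    have htb := trace_bound hV h
    rw [← hD'] at htb
    have he0 := h.pos
    rcases lt_or_ge e 4 with he | he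
    · have hs : Real.sqrt e ≤ 2 := by
        rw [show (2 : ℝ) = Real.sqrt 4 by
          rw [show (4 : ℝ) = 2 ^ 2 by norm_num, Real.sqrt_sq (by norm_num)]]
        exact Real.sqrt_le_sqrt he.le
      nlinarith
    · have hs0 := Real.sqrt_nonneg e
      have hss := Real.mul_self_sqrt he0.le
      have hs2 : 2 ≤ Real.sqrt e := by
        rw [show (2 : ℝ) = Real.sqrt 4 by
          rw [show (4 : ℝ) = 2 ^ 2 by norm_num, Real.sqrt_sq (by norm_num)]]
        exact Real.sqrt_le_sqrt he
      have hse : 2 * Real.sqrt e ≤ e := by nlinarith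
      have hn1 : (V.card : ℝ) ≤ 3 * e * D' := by nlinarith
      have hsub : V ⊆ insert x (nbr V x ∪ sph V x) := by
        intro y hy
        rw [mem_insert, mem_union]
        by_cases hyx : y = x
        · exact Or.inl hyx
        · by_cases hyn : y ∈ nbr V x
          · exact Or.inr (Or.inl hyn)
          · have h1 := unit_of_not_nbr hy hyx hyn
            exact Or.inr (Or.inr (mem_sph.2 ⟨hy, by rw [dist_comm]; exact h1⟩))
      have hcard : V.card ≤ (d + 1) + (sph V x).card + 1 := by
        calc V.card ≤ (insert x (nbr V x ∪ sph V x)).card := card_le_card hsub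
          _ ≤ (nbr V x ∪ sph V x).card + 1 := card_insert_le _ _
          _ ≤ (nbr V x).card + (sph V x).card + 1 := by
              have := card_union_le (nbr V x) (sph V x)
              omega
          _ ≤ (d + 1) + (sph V x).card + 1 := by
              have := (clq_nbr hV h.mem).card_le
              omega
      have hcardR : (V.card : ℝ) ≤ D' + (sph V x).card := by
        have h1 : (V.card : ℝ) ≤ ((d : ℝ) + 1) + (sph V x).card + 1 := by exact_mod_cast hcard
        rw [hD']
        linarith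
      set N : ℝ := ((sph V x).card : ℝ) with hN
      have hN0 : 0 ≤ N := Nat.cast_nonneg _
      set n : ℝ := (V.card : ℝ) with hn
      have hn0 : 0 ≤ n := Nat.cast_nonneg _
      rcases far_two hV h he hD with hf | hf
      · by_cases hn2 : n ≤ 2 * D'
        · nlinarith
        · have hnN : n ≤ 2 * N := by linarith
          have h3 : n ^ 3 ≤ (14 * (D * q)) ^ 3 := by
            calc n ^ 3 = n ^ 2 * n := by ring
              _ ≤ (2 * N) ^ 2 * (3 * e * D') := by
                  apply mul_le_mul (pow_le_pow_left₀ hn0 hnN 2) hn1 hn0 (by positivity)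
              _ = 12 * D' * (N ^ 2 * e) := by ring
              _ ≤ 12 * D' * (196 * D ^ 3) := by
                  apply mul_le_mul_of_nonneg_left hf (by positivity)
              _ = 2352 * (D * q) ^ 3 := by rw [mul_pow, hq3]; ring
              _ ≤ 2744 * (D * q) ^ 3 := by
                  have : 0 ≤ (D * q) ^ 3 := by positivity
                  linarith
              _ = (14 * (D * q)) ^ 3 := by ring
          have h4 : n ≤ 14 * (D * q) :=
            (pow_le_pow_iff_left₀ hn0 (by positivity) (by norm_num)).1 h3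
          linarith
      · have h5 : (D : ℝ) ≤ D * q := le_mul_of_one_le_right hD0 hq1
        linarith
  · push Not at hne
    have hclq : Clq V := by
      intro y hy z hz hyz
      refine unit_of_not_nbr hz hyz.symm ?_
      rw [hne y hy]
      exact notMem_empty _
    have h1 : (V.card : ℝ) ≤ (d : ℝ) + 1 := by exact_mod_cast hclq.card_le
    rw [hD']
    nlinarith

end Pool.Agent.Lib.H46AE
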