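import Pool.Agent.Lib.H46AE.A2
import Pool.Agent.Lib.H46AE.B2

/-!
# Project H46AE, chunk G1: the bound of order d/c
-/

open Finset

namespace Pool.Agent.Lib.H46AE

open Pool.Agent.Lib.Helper17.AE

variable {d : ℕ}

/-- Trace bound for bounded row energies. -/
theorem card_le_of_energy {V : Finset (E d)} {B : ℝ}
    (hB : ∀ v ∈ V, ∑ y ∈ nbr V v, (1 - dist v y ^ 2) ^ 2 ≤ B) (hV : V.Nonempty) :
    (V.card : ℝ) ≤ (d + 2) * (1 + B) := by
  classical
  have h := trace_sq_le (fun x : V => lift (x : E d)) (fun _ => 1) (fun _ => by norm_num)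
  simp only [form_lift, dist_self] at h
  have hL : ∑ x : V, (1 : ℝ) * (1 - 0 ^ 2) = (V.card : ℝ) := by simp
  rw [hL] at h
  have hR : ∑ x : V, ∑ y : V, (1 - dist (x : E d) (y : E d) ^ 2) ^ 2 ≤ (V.card : ℝ) * (1 + B) := by
    have : ∀ x : V, ∑ y : V, (1 - dist (x : E d) (y : E d) ^ 2) ^ 2 ≤ 1 + B := by
      intro x
      rw [Finset.sum_coe_sort V (fun y => (1 - dist (x : E d) y ^ 2) ^ 2), row_sum (x : E d) x.2]
      linarith [hB x x.2]
    refine (Finset.sum_le_sum fun x _ => this x).trans ?_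
    rw [Finset.sum_const, nsmul_eq_mul, Finset.card_univ, Fintype.card_coe]
  have hm : (0 : ℝ) < (V.card : ℝ) := by exact_mod_cast hV.card_pos
  have h2 : (V.card : ℝ) ^ 2 ≤ ((d : ℝ) + 2) * ((V.card : ℝ) * (1 + B)) :=
    h.trans (mul_le_mul_of_nonneg_left hR (by positivity))
  have h3 : (V.card : ℝ) * V.card ≤ (V.card : ℝ) * ((d + 2) * (1 + B)) := by
    calc (V.card : ℝ) * V.card = (V.card : ℝ) ^ 2 := by ring
      _ ≤ ((d : ℝ) + 2) * ((V.card : ℝ) * (1 + B)) := h2
      _ = (V.card : ℝ) * ((d + 2) * (1 + B)) := by ring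
  exact le_of_mul_le_mul_left h3 hm

/-- The energy of a row is at most `W + 4` if all distances are at most `√2` and the sum of the row is at most `W`
in absolute value. -/
theorem energy_le {V : Finset (E d)} (hV : AlmostEq V) {v : E d} (hv : v ∈ V) {W : ℝ}
    (hW : |∑ y ∈ nbr V v, ex v y| ≤ W) (h1 : ∀ y ∈ nbr V v, ex v y ≤ 1) :
    ∑ y ∈ nbr V v, (1 - dist v y ^ 2) ^ 2 ≤ W + 4 := by
  classical
  have hW0 : 0 ≤ W := (abs_nonneg _).trans hW
  rcases (nbr V v).eq_empty_or_nonempty with h0 | hne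
  · rw [h0, Finset.sum_empty]
    linarith
  have hK := clq_nbr hV hv
  set K := nbr V v with hKdef
  have hk : (0 : ℝ) < K.card := by exact_mod_cast hne.card_pos
  have hk1 : (1 : ℝ) ≤ K.card := by exact_mod_cast hne.card_pos
  have hsum : ∑ y ∈ K, ex v y = K.card * mn K v := by
    unfold mn
    rw [← mul_assoc, mul_inv_cancel₀ hk.ne', one_mul]
  have hvar := var_le hK hne v
  have hm1 : mn K v ≤ 1 := by
    have h2 : ∑ y ∈ K, ex v y ≤ K.card := by
      have := Finset.sum_le_sum h1
      simpa using this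
    rw [hsum] at h2
    by_contra hc
    push Not at hc
    nlinarith
  have hm2 := mn_ge hK hne v
  have hexp : ∑ y ∈ K, (ex v y - mn K v) ^ 2 = ∑ y ∈ K, ex v y ^ 2 - K.card * mn K v ^ 2 := by
    have e1 : ∀ y ∈ K, (ex v y - mn K v) ^ 2 =
        ex v y ^ 2 - 2 * mn K v * ex v y + mn K v ^ 2 := fun y _ => by ring
    rw [Finset.sum_congr rfl e1, Finset.sum_add_distrib, Finset.sum_sub_distrib, ← Finset.mul_sum,
      hsum, Finset.sum_const, nsmul_eq_mul]
    ring
  have hE : ∑ y ∈ K, (1 - dist v y ^ 2) ^ 2 = ∑ y ∈ K, ex v y ^ 2 :=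
    Finset.sum_congr rfl fun y _ => by unfold ex; ring
  rw [hE]
  rw [hexp] at hvar
  have hinv : 1 / (K.card : ℝ) ≤ 1 := by
    rw [div_le_one hk]
    exact hk1
  have hkm : K.card * mn K v ^ 2 ≤ W := by
    rw [hsum, abs_mul, abs_of_pos hk] at hW
    have h3 : K.card * mn K v ^ 2 = K.card * |mn K v| * |mn K v| := by
      rw [mul_assoc, abs_mul_abs_self]
      ring
    have h4 : |mn K v| ≤ 1 := abs_le.2 ⟨hm2, hm1⟩
    rw [h3]
    calc K.card * |mn K v| * |mn K v| ≤ K.card * |mn K v| * 1 :=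
          mul_le_mul_of_nonneg_left h4 (by positivity)
      _ ≤ W := by rw [mul_one]; exact hW
  linarith

/-- An almost-equidistant set with a distance above `√2`. -/
theorem far_pair {V : Finset (E d)} (hV : AlmostEq V) {v y : E d} (hv : v ∈ V)
    (hy : y ∈ nbr V v) (h : 1 < ex v y) : V.card ≤ 4 * d + 2 := by
  have hS : 1 < ∑ z ∈ ({y} : Finset (E d)), (1 - dist v z ^ 2) ^ 2 := by
    rw [Finset.sum_singleton]
    unfold ex at h
    nlinarith
  have h1 := card_le_of_nbr hV hv {y} (Finset.singleton_subset_iff.2 hy) hS (D := d + 1)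
    (fun w hw => nbr_card hV hw)
  rw [Finset.card_singleton] at h1
  omega

/-- The bound of order `d / c`. -/
theorem gap_bound_lin {V : Finset (E d)} {c : ℝ} (hV : AlmostEq V) (hc : 0 < c) (hc1 : c ≤ 1)
    (hgap : Gap V c) : (V.card : ℝ) ≤ 17 * (d + 2) / c := by
  classical
  have hd2 : (0 : ℝ) < (d : ℝ) + 2 := by positivity
  have hbig : ∀ t : ℝ, t ≤ 17 * (d + 2) → t ≤ 17 * (d + 2) / c := fun t ht => by
    rw [le_div_iff₀ hc]
    rcases le_or_gt t 0 with h | h
    · have : t * c ≤ 0 := mul_nonpos_of_nonpos_of_nonneg h hc.le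
      linarith [mul_pos (show (0:ℝ) < 17 by norm_num) hd2]
    · calc t * c ≤ t * 1 := mul_le_mul_of_nonneg_left hc1 h.le
        _ ≤ _ := by rw [mul_one]; exact ht
  by_cases hne : ∃ x ∈ V, (nbr V x).Nonempty
  swap
  · have hclq : Clq V := by
      intro y hy z hz hyz
      refine unit_of_not_nbr hz hyz.symm fun h => hne ⟨y, hy, z, h⟩
    have := hclq.card_le
    have h2 : (V.card : ℝ) ≤ d + 1 := by exact_mod_cast this
    exact hbig _ (by linarith)
  obtain ⟨x, T, W, h⟩ := exists_top hgap hne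
  have hVne : V.Nonempty := ⟨x, h.mem⟩
  have hTclq : Clq T := (clq_nbr hV h.mem).mono h.sub
  rcases le_or_gt 4 ((T.card : ℝ) * mn T x ^ 2) with he | he
  · have h1 := far_card hV hc hc1 h he
    have hTd : (T.card : ℝ) ≤ d + 1 := by exact_mod_cast hTclq.card_le
    have hsub : V ⊆ insert x (nbr V x) ∪ sph V x := by
      intro v hv
      by_cases hvx : v = x
      · rw [hvx]
        exact Finset.mem_union_left _ (Finset.mem_insert_self _ _)
      by_cases hvn : v ∈ nbr V x
      · exact Finset.mem_union_left _ (Finset.mem_insert_of_mem hvn)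
      · refine Finset.mem_union_right _ (mem_sph.2 ⟨hv, ?_⟩)
        rw [dist_comm]
        exact unit_of_not_nbr hv hvx hvn
    have hcard : V.card ≤ (d + 1) + 1 + (sph V x).card := by
      refine (Finset.card_le_card hsub).trans ((Finset.card_union_le _ _).trans ?_)
      refine Nat.add_le_add_right ((Finset.card_insert_le _ _).trans ?_) _
      exact Nat.add_le_add_right (nbr_card hV h.mem) 1
    have hcard' : (V.card : ℝ) ≤ (d + 2) + (sph V x).card := by
      have : (V.card : ℝ) ≤ ((d + 1) + 1 + (sph V x).card : ℕ) := by exact_mod_cast hcard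
      push_cast at this
      linarith
    rw [le_div_iff₀ hc]
    calc (V.card : ℝ) * c ≤ ((d + 2) + (sph V x).card) * c :=
          mul_le_mul_of_nonneg_right hcard' hc.le
      _ = (d + 2) * c + (sph V x).card * c := by ring
      _ ≤ (d + 2) * 1 + 16 * T.card :=
          add_le_add (mul_le_mul_of_nonneg_left hc1 hd2.le) h1
      _ ≤ 17 * (d + 2) := by linarith
  · by_cases hfar : ∃ v ∈ V, ∃ y ∈ nbr V v, 1 < ex v y
    · obtain ⟨v, hv, y, hy, h1⟩ := hfar
      have h2 : (V.card : ℝ) ≤ 4 * d + 2 := by exact_mod_cast far_pair hV hv hy h1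
      exact hbig _ (by linarith [show (0:ℝ) ≤ d from Nat.cast_nonneg d])
    · push Not at hfar
      have hWc : W * c < 4 := by
        have h1 := h.mul_abs
        have h2 := h.le_abs
        calc W * c = T.card * |mn T x| * c := by rw [h1]
          _ ≤ T.card * |mn T x| * |mn T x| := mul_le_mul_of_nonneg_left h2 (by positivity)
          _ = T.card * mn T x ^ 2 := by rw [mul_assoc, abs_mul_abs_self]; ring
          _ < 4 := he
      have h1 := card_le_of_energy (B := W + 4) (fun v hv =>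
        energy_le hV hv (h.max v hv _ (Finset.Subset.refl _)) (hfar v hv)) hVne
      rw [le_div_iff₀ hc]
      calc (V.card : ℝ) * c ≤ (d + 2) * (1 + (W + 4)) * c := mul_le_mul_of_nonneg_right h1 hc.le
        _ = (d + 2) * (5 * c + W * c) := by ring
        _ ≤ (d + 2) * (5 * 1 + 4) := by
            refine mul_le_mul_of_nonneg_left ?_ hd2.le
            linarith
        _ ≤ 17 * (d + 2) := by linarith

end Pool.Agent.Lib.H46AE
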