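import Pool.Agent.Lib.H46AE.Defs

/-!
# Project H46AE, chunk G2: the gap bound of the former hand-in DistanceGap (helper17)
-/

namespace Pool.Agent.Lib.H46AE

open Finset Pool.Agent.Lib.Helper17.AE

private theorem sum_nbr_eq {d : ℕ} {V : Finset (E d)} (x : E d) (Y : Finset (E d))
    (hY : Y ⊆ V.erase x) :
    ∃ Y0 ⊆ nbr V x, Y0 ⊆ Y ∧
      ∑ y ∈ Y0, (1 - dist x y ^ 2) ^ 2 = ∑ y ∈ Y, (1 - dist x y ^ 2) ^ 2 := by
  classical
  refine ⟨Y.filter (fun y => dist x y ≠ 1), ?_, Finset.filter_subset _ _, ?_⟩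
  · intro y hy
    rw [Finset.mem_filter] at hy
    have := Finset.mem_erase.mp (hY hy.1)
    exact mem_nbr.mpr ⟨this.2, this.1, hy.2⟩
  · refine Finset.sum_subset (Finset.filter_subset _ _) ?_
    intro y hy hy2
    have : dist x y = 1 := by
      by_contra h; exact hy2 (Finset.mem_filter.mpr ⟨hy, h⟩)
    rw [this]; norm_num

private theorem nbr_subset {d : ℕ} {V : Finset (E d)} (x : E d) : nbr V x ⊆ V.erase x := by
  intro y hy
  rw [mem_nbr] at hy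
  exact Finset.mem_erase.mpr ⟨hy.2.1, hy.1⟩

/-- Linear bounds for almost-equidistant sets in which `k` points near one point carry energy larger than one. -/
theorem energy_points {d : ℕ} (hd : 1 ≤ d) (V : Finset (E d)) (hV : AlmostEq V) (k : ℕ)
    (h : (∀ x ∈ V, ∑ y ∈ V.erase x, (1 - dist x y ^ 2) ^ 2 ≤ 1) ∨
      ∃ x ∈ V, ∃ Y ⊆ V.erase x, Y.card ≤ k ∧ 1 < ∑ y ∈ Y, (1 - dist x y ^ 2) ^ 2) :
    V.card + 2 * k ≤ (k + 3) * (d + 1) := by
  rcases h with h | ⟨x, hx, Y, hY, hYk, hS⟩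
  · have h1 : V.card ≤ 2 * (d + 2) := by
      apply card_le_of_small
      intro x hx
      refine (Finset.sum_le_sum_of_subset_of_nonneg (nbr_subset x) ?_).trans (h x hx)
      intro y _ _; positivity
    nlinarith
  · obtain ⟨Y0, hY0, hY0Y, hsum⟩ := sum_nbr_eq x Y hY
    rw [← hsum] at hS
    have h1 := card_le_of_nbr hV hx Y0 hY0 hS (D := d + 1) (fun v hv => nbr_card hV hv)
    have h2 : Y0.card ≤ k := (Finset.card_le_card hY0Y).trans hYk
    nlinarith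

/-- The gap bound with the factor `⌊1 / c ^ 2⌋ + 4`. -/
theorem gap_bound_floor {d : ℕ} (hd : 1 ≤ d) {V : Finset (E d)} (hV : AlmostEq V) {c : ℝ}
    (hc : 0 < c) (hgap : ∀ x ∈ V, ∀ y ∈ V, x ≠ y → dist x y = 1 ∨ c ≤ |dist x y ^ 2 - 1|) :
    (V.card : ℝ) ≤ (⌊1 / c ^ 2⌋₊ + 4) * (d + 1) - 2 * (⌊1 / c ^ 2⌋₊ + 1) := by
  classical
  have hk : 1 < ((⌊1 / c ^ 2⌋₊ + 1 : ℕ) : ℝ) * c ^ 2 := by
    have h1 := Nat.lt_floor_add_one (1 / c ^ 2)
    have hc2 : 0 < c ^ 2 := by positivity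
    rw [div_lt_iff₀ hc2] at h1
    push_cast
    exact h1
  have key : V.card + 2 * (⌊1 / c ^ 2⌋₊ + 1) ≤ (⌊1 / c ^ 2⌋₊ + 1 + 3) * (d + 1) := by
    refine energy_points hd V hV (⌊1 / c ^ 2⌋₊ + 1) ?_
    by_cases h : ∀ x ∈ V, ∑ y ∈ V.erase x, (1 - dist x y ^ 2) ^ 2 ≤ 1
    · exact Or.inl h
    · right
      push Not at h
      obtain ⟨x, hx, hS⟩ := h
      obtain ⟨Y0, hY0, -, hsum⟩ := sum_nbr_eq x (V.erase x) (Finset.Subset.refl _)
      rw [← hsum] at hS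
      refine ⟨x, hx, ?_⟩
      by_cases hcard : Y0.card ≤ ⌊1 / c ^ 2⌋₊ + 1
      · exact ⟨Y0, hY0.trans (nbr_subset x), hcard, hS⟩
      · push Not at hcard
        obtain ⟨Y1, hY1, hY1c⟩ := Finset.exists_subset_card_eq hcard.le
        refine ⟨Y1, (hY1.trans hY0).trans (nbr_subset x), hY1c.le, ?_⟩
        refine hk.trans_le ?_
        rw [← hY1c, ← nsmul_eq_mul]
        apply Finset.card_nsmul_le_sum
        intro y hy
        have hy2 := mem_nbr.mp (hY0 (hY1 hy))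
        rcases hgap x hx y hy2.1 (Ne.symm hy2.2.1) with h1 | h1
        · exact absurd h1 hy2.2.2
        · have : (1 - dist x y ^ 2) ^ 2 = |dist x y ^ 2 - 1| ^ 2 := by rw [sq_abs]; ring
          rw [this]
          exact pow_le_pow_left₀ hc.le h1 2
  have h2 : (V.card : ℝ) + 2 * (⌊1 / c ^ 2⌋₊ + 1) ≤ (⌊1 / c ^ 2⌋₊ + 1 + 3) * (d + 1) := by
    exact_mod_cast key
  linarith

end Pool.Agent.Lib.H46AE
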